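import Mathlib

/-!
# Simultaneous Waring decompositions: definitions (helper88)
-/

set_option autoImplicit false

open MvPolynomial

namespace Pool.Agent.Waring

/-- the family of coefficients of an `s`-tuple of polynomials in `n + 1` variables -/
noncomputable def coeffs {n s : ℕ} (f : Fin s → MvPolynomial (Fin (n + 1)) ℂ) :
    Fin s × (Fin (n + 1) →₀ ℕ) → ℂ :=
  fun p => (f p.1).coeff p.2

/-- Property `W(d, h, n, s)`: there is a polynomial `G` in the coefficients of `s`-tuples of forms
of degree `d` in `n + 1` variables, not identically zero on such tuples, such that every `s`-tuple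
`f` of forms of degree `d` with `G(f) ≠ 0` consists of linear combinations of the `d`-th powers of
the same `h` linear forms. -/
def W (d h n s : ℕ) : Prop :=
  ∃ G : MvPolynomial (Fin s × (Fin (n + 1) →₀ ℕ)) ℂ,
    (∃ f : Fin s → MvPolynomial (Fin (n + 1)) ℂ,
      (∀ j, (f j).IsHomogeneous d) ∧ eval (coeffs f) G ≠ 0) ∧
    ∀ f : Fin s → MvPolynomial (Fin (n + 1)) ℂ, (∀ j, (f j).IsHomogeneous d) →
      eval (coeffs f) G ≠ 0 →
      ∃ (l : Fin h → Fin (n + 1) → ℂ) (c : Fin s → Fin h → ℂ),
        ∀ j, f j = ∑ i, C (c j i) * (∑ k, C (l i k) * X k) ^ d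

end Pool.Agent.Waring
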