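import Pool.Agent.Lib_helper88.Waring.Gen

/-!
# Polynomials of degree `< m` in two variables as arrays of coefficients (helper88)
-/

set_option autoImplicit false

open Finset

namespace Pool.Agent.Waring

/-- arrays of coefficients: `c i j` is the coefficient of `x^i y^j` -/
abbrev Arr : Type := ℕ → ℕ → ℂ

/-- the functional `∑_{i+j<m} c i j φ(i) ψ(j)` -/
noncomputable def fn (m : ℕ) (φ ψ : ℕ → ℂ) : Arr →ₗ[ℂ] ℂ where
  toFun c := ∑ j ∈ range m, ∑ i ∈ range (m - j), c i j * (φ i * ψ j)
  map_add' c c' := by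
    simp only [Pi.add_apply, add_mul, Finset.sum_add_distrib]
  map_smul' a c := by
    simp only [Pi.smul_apply, smul_eq_mul, Finset.mul_sum, RingHom.id_apply, mul_assoc]

lemma fn_apply (m : ℕ) (φ ψ : ℕ → ℂ) (c : Arr) :
    fn m φ ψ c = ∑ j ∈ range m, ∑ i ∈ range (m - j), c i j * (φ i * ψ j) := rfl

/-- value -/
noncomputable def ev (m : ℕ) (x y : ℂ) : Arr →ₗ[ℂ] ℂ := fn m (fun i => x ^ i) (fun j => y ^ j)

/-- derivative with respect to `x` -/
noncomputable def dx (m : ℕ) (x y : ℂ) : Arr →ₗ[ℂ] ℂ :=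
  fn m (fun i => i * x ^ (i - 1)) (fun j => y ^ j)

/-- derivative with respect to `y` -/
noncomputable def dy (m : ℕ) (x y : ℂ) : Arr →ₗ[ℂ] ℂ :=
  fn m (fun i => x ^ i) (fun j => j * y ^ (j - 1))

/-- the quotient by `y` -/
def sh (c : Arr) : Arr := fun i j => c i (j + 1)

/-- the restriction to `y = 0` -/
noncomputable def tr (m : ℕ) (c : Arr) : Polynomial ℂ :=
  ∑ i ∈ range m, Polynomial.C (c i 0) * Polynomial.X ^ i

lemma fn_rec (m : ℕ) (φ ψ : ℕ → ℂ) (c : Arr) :
    fn m φ ψ c = (∑ i ∈ range m, c i 0 * φ i) * ψ 0 + fn (m - 1) φ (fun j => ψ (j + 1)) (sh c) := by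
  cases m with
  | zero => simp [fn_apply]
  | succ m =>
    rw [fn_apply, Finset.sum_range_succ', fn_apply, Finset.sum_mul]
    simp only [Nat.add_sub_cancel, Nat.sub_zero, sh]
    rw [add_comm]
    congr 1
    · exact Finset.sum_congr rfl fun i _ => by ring
    · refine Finset.sum_congr rfl fun j _ => ?_
      rw [Nat.add_sub_add_right]

lemma eval_tr (m : ℕ) (c : Arr) (x : ℂ) : (tr m c).eval x = ∑ i ∈ range m, c i 0 * x ^ i := by
  simp [tr, Polynomial.eval_finsetSum]

lemma eval_tr' (m : ℕ) (c : Arr) (x : ℂ) :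
    (tr m c).derivative.eval x = ∑ i ∈ range m, c i 0 * (i * x ^ (i - 1)) := by
  simp only [tr, Polynomial.derivative_sum, Polynomial.derivative_C_mul_X_pow,
    Polynomial.eval_finsetSum, Polynomial.eval_mul, Polynomial.eval_C, Polynomial.eval_pow,
    Polynomial.eval_X]
  exact Finset.sum_congr rfl fun i _ => by ring

lemma fn_mul (m : ℕ) (φ ψ : ℕ → ℂ) (a : ℂ) (c : Arr) :
    fn m φ (fun j => a * ψ j) c = a * fn m φ ψ c := by
  simp only [fn_apply, Finset.mul_sum]
  exact Finset.sum_congr rfl fun j _ => Finset.sum_congr rfl fun i _ => by ring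

lemma fn_add (m : ℕ) (φ ψ ψ' : ℕ → ℂ) (c : Arr) :
    fn m φ (fun j => ψ j + ψ' j) c = fn m φ ψ c + fn m φ ψ' c := by
  simp only [fn_apply, mul_add, Finset.sum_add_distrib]

lemma ev_rec (m : ℕ) (x y : ℂ) (c : Arr) :
    ev m x y c = (tr m c).eval x + y * ev (m - 1) x y (sh c) := by
  rw [ev, fn_rec, eval_tr, ev, ← fn_mul]
  simp only [pow_zero, mul_one, pow_succ']

lemma dx_rec (m : ℕ) (x y : ℂ) (c : Arr) :
    dx m x y c = (tr m c).derivative.eval x + y * dx (m - 1) x y (sh c) := by
  rw [dx, fn_rec, eval_tr', dx, ← fn_mul]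
  simp only [pow_zero, mul_one, pow_succ']

lemma dy_rec (m : ℕ) (x y : ℂ) (c : Arr) :
    dy m x y c = ev (m - 1) x y (sh c) + y * dy (m - 1) x y (sh c) := by
  rw [dy, fn_rec, ev, dy, ← fn_mul, ← fn_add]
  have h1 : (∑ i ∈ range m, c i 0 * x ^ i) * (((0 : ℕ) : ℂ) * y ^ (0 - 1)) = 0 := by simp
  rw [h1, zero_add]
  congr 2
  funext j
  cases j with
  | zero => simp
  | succ j =>
    simp only [Nat.add_sub_cancel]
    push_cast
    ring

lemma ev_zero_right (m : ℕ) (x : ℂ) (c : Arr) : ev m x 0 c = (tr m c).eval x := by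
  rw [ev_rec]; simp

lemma dx_zero_right (m : ℕ) (x : ℂ) (c : Arr) : dx m x 0 c = (tr m c).derivative.eval x := by
  rw [dx_rec]; simp

lemma dy_zero_right (m : ℕ) (x : ℂ) (c : Arr) : dy m x 0 c = ev (m - 1) x 0 (sh c) := by
  rw [dy_rec]; simp

/-- polynomials of degree `< m` -/
def V (m : ℕ) : Submodule ℂ Arr where
  carrier := {c | ∀ i j, m ≤ i + j → c i j = 0}
  zero_mem' := fun _ _ _ => rfl
  add_mem' := fun {a b} ha hb i j h => by
    rw [Pi.add_apply, Pi.add_apply, ha i j h, hb i j h, add_zero]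
  smul_mem' := fun a c hc i j h => by
    rw [Pi.smul_apply, Pi.smul_apply, hc i j h, smul_zero]

lemma mem_V {m : ℕ} {c : Arr} : c ∈ V m ↔ ∀ i j, m ≤ i + j → c i j = 0 := Iff.rfl

lemma sh_mem {m : ℕ} {c : Arr} (hc : c ∈ V m) : sh c ∈ V (m - 1) := by
  intro i j h
  exact hc i (j + 1) (by omega)

lemma V_zero {c : Arr} (hc : c ∈ V 0) : c = 0 := by
  funext i j
  exact hc i j (Nat.zero_le _)

lemma eq_zero_of {m : ℕ} {c : Arr} (hc : c ∈ V m) (h1 : tr m c = 0) (h2 : sh c = 0) : c = 0 := by
  funext i j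
  cases j with
  | zero =>
    by_cases hi : i < m
    · have h3 := congrArg (fun p => Polynomial.coeff p i) h1
      simp only [tr, Polynomial.finsetSum_coeff, Polynomial.coeff_C_mul_X_pow,
        Polynomial.coeff_zero] at h3
      rw [Finset.sum_eq_single i] at h3
      · simpa using h3
      · intro b _ hb
        rw [if_neg (Ne.symm hb)]
      · intro h
        exact absurd (mem_range.2 hi) h
    · exact hc i 0 (by omega)
  | succ j => exact congrFun (congrFun h2 i) j

lemma tr_degree (m : ℕ) (c : Arr) (h : tr m c ≠ 0) : (tr m c).natDegree < m := by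
  have hm : 0 < m := by
    rcases Nat.eq_zero_or_pos m with rfl | hm
    · exact absurd (by simp [tr]) h
    · exact hm
  have h1 : (tr m c).natDegree ≤ m - 1 := by
    rw [tr]
    refine Polynomial.natDegree_sum_le_of_forall_le _ _ fun i hi => ?_
    refine (Polynomial.natDegree_C_mul_X_pow_le _ _).trans ?_
    have := mem_range.1 hi
    omega
  omega

instance instFin (m : ℕ) : FiniteDimensional ℂ (V m) := by
  let f : V m →ₗ[ℂ] (Fin m → Fin m → ℂ) :=
    { toFun := fun c i j => (c : Arr) i j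
      map_add' := fun _ _ => rfl
      map_smul' := fun _ _ => rfl }
  refine FiniteDimensional.of_injective f ?_
  rw [← LinearMap.ker_eq_bot, LinearMap.ker_eq_bot']
  intro c hc
  apply Subtype.ext
  funext i j
  by_cases h : i < m ∧ j < m
  · exact congrFun (congrFun hc ⟨i, h.1⟩) ⟨j, h.2⟩
  · exact c.2 i j (by omega)

/-- a polynomial of degree `< 2|A| + |B|` with double zeros on `A` and zeros on `B` vanishes -/
lemma tr_eq_zero {m : ℕ} {c : Arr} {A B : Finset ℂ} (hAB : Disjoint A B)
    (hcard : m ≤ 2 * A.card + B.card)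
    (hA : ∀ x ∈ A, (tr m c).eval x = 0 ∧ (tr m c).derivative.eval x = 0)
    (hB : ∀ x ∈ B, (tr m c).eval x = 0) : tr m c = 0 := by
  classical
  by_contra h
  have h1 := tr_degree m c h
  have h2 := Polynomial.card_roots' (tr m c)
  have h3 : 2 * A.card + B.card ≤ Multiset.card (tr m c).roots := by
    have h4 : (A.val + A.val + B.val) ≤ (tr m c).roots := by
      rw [Multiset.le_iff_count]
      intro x
      rw [Multiset.count_add, Multiset.count_add, Polynomial.count_roots]
      by_cases hx : x ∈ A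
      · have hxB : x ∉ B := Finset.disjoint_left.1 hAB hx
        have e1 : Multiset.count x A.val = 1 := Multiset.count_eq_one_of_mem A.nodup hx
        have e2 : Multiset.count x B.val = 0 := Multiset.count_eq_zero.2 hxB
        have e3 : 1 < (tr m c).rootMultiplicity x :=
          (Polynomial.one_lt_rootMultiplicity_iff_isRoot h).2 ⟨(hA x hx).1, (hA x hx).2⟩
        omega
      · have e1 : Multiset.count x A.val = 0 := Multiset.count_eq_zero.2 hx
        by_cases hxB : x ∈ B
        · have e2 : Multiset.count x B.val = 1 := Multiset.count_eq_one_of_mem B.nodup hxB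
          have e3 : 0 < (tr m c).rootMultiplicity x :=
            (Polynomial.rootMultiplicity_pos h).2 (hB x hxB)
          omega
        · have e2 : Multiset.count x B.val = 0 := Multiset.count_eq_zero.2 hxB
          omega
    have h5 := Multiset.card_le_card h4
    simp only [Multiset.card_add, Finset.card_val] at h5
    omega
  omega

end Pool.Agent.Waring
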