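import Mathlib

/-!
# Dominance of polynomial maps from the Jacobian criterion (helper88)
-/

set_option autoImplicit false

open MvPolynomial Cardinal

namespace Pool.Agent.Waring

/-- chain rule -/
lemma pderiv_aeval {σ τ : Type*} [Fintype τ] (θ : τ → MvPolynomial σ ℂ) (a : σ)
    (F : MvPolynomial τ ℂ) :
    pderiv a (aeval θ F) = ∑ b, aeval θ (pderiv b F) * pderiv a (θ b) := by
  classical
  induction F using MvPolynomial.induction_on with
  | C c => simp
  | add p q hp hq =>
    simp only [map_add, hp, hq, add_mul, Finset.sum_add_distrib]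
  | mul_X p b hp =>
    have h1 : ∀ c : τ, aeval θ (pderiv c (p * X b)) * pderiv a (θ c) =
        θ b * (aeval θ (pderiv c p) * pderiv a (θ c)) +
          (if c = b then aeval θ p * pderiv a (θ b) else 0) := by
      intro c
      rw [pderiv_mul, pderiv_X]
      by_cases hc : c = b
      · subst hc
        simp only [Pi.single_eq_same, map_add, map_mul, aeval_X, map_one, if_true]
        ring
      · rw [if_neg hc, Pi.single_eq_of_ne (Ne.symm hc)]
        simp only [map_add, map_mul, aeval_X, map_zero]
        ring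
    simp only [h1, Finset.sum_add_distrib, ← Finset.mul_sum, ← hp]
    simp only [map_mul, aeval_X, pderiv_mul]
    simp only [Finset.sum_ite_eq', Finset.mem_univ, if_true]
    ring

lemma eq_C_of_pderiv {τ : Type*} (F : MvPolynomial τ ℂ) (h : ∀ b, pderiv b F = 0) :
    F = C (coeff 0 F) := by
  classical
  ext m
  rw [coeff_C]
  split_ifs with hm
  · rw [hm]
  · have hm' : m ≠ 0 := fun h => hm h.symm
    obtain ⟨b, hb⟩ : ∃ b, m b ≠ 0 := by
      by_contra hcon
      push Not at hcon
      exact hm' (Finsupp.ext hcon)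
    have h1 := congrArg (coeff (m - Finsupp.single b 1)) (h b)
    have e : m - Finsupp.single b 1 + Finsupp.single b 1 = m := by
      refine tsub_add_cancel_of_le ?_
      rw [Finsupp.single_le_iff]
      omega
    rw [coeff_pderiv, e, coeff_zero] at h1
    rcases mul_eq_zero.1 h1 with h2 | h2
    · exact h2
    · exfalso
      exact Nat.cast_add_one_ne_zero _ h2

lemma totalDegree_pderiv_le {τ : Type*} (F : MvPolynomial τ ℂ) (b : τ) (n : ℕ)
    (h : F.totalDegree ≤ n + 1) : (pderiv b F).totalDegree ≤ n := by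
  classical
  refine Finset.sup_le fun m hm => ?_
  rw [mem_support_iff, coeff_pderiv] at hm
  have h1 : m + Finsupp.single b 1 ∈ F.support := by
    rw [mem_support_iff]
    exact left_ne_zero_of_mul hm
  have h2 := le_totalDegree h1
  rw [Finsupp.sum_add_index' (fun _ => rfl) (fun _ _ _ => rfl),
    Finsupp.sum_single_index rfl] at h2
  omega

/-- Jacobian criterion -/
lemma algInd_of_jac {τ : Type*} [Fintype τ] [DecidableEq τ] (θ : τ → MvPolynomial τ ℂ)
    (h : (Matrix.of fun a b => pderiv a (θ b)).det ≠ 0) (n : ℕ) :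
    ∀ F : MvPolynomial τ ℂ, F.totalDegree ≤ n → aeval θ F = 0 → F = 0 := by
  induction n with
  | zero =>
    intro F hF h0
    have h1 : F.totalDegree = 0 := by omega
    rw [totalDegree_eq_zero_iff_eq_C] at h1
    rw [h1] at h0 ⊢
    simp only [aeval_C, algebraMap_eq, C_eq_zero] at h0
    rw [h0, C_0]
  | succ n ih =>
    intro F hF h0
    have hz : (Matrix.of fun a b => pderiv a (θ b)).mulVec (fun b => aeval θ (pderiv b F)) = 0 := by
      funext a
      have := pderiv_aeval θ a F
      rw [h0, map_zero] at this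
      simp only [Matrix.mulVec, dotProduct, Matrix.of_apply, Pi.zero_apply]
      rw [this]
      exact Finset.sum_congr rfl fun b _ => mul_comm _ _
    have hz' := Matrix.eq_zero_of_mulVec_eq_zero h hz
    have hp : ∀ b, pderiv b F = 0 := fun b =>
      ih _ (totalDegree_pderiv_le F b n hF) (congrFun hz' b)
    rw [eq_C_of_pderiv F hp] at h0 ⊢
    simp only [aeval_C, algebraMap_eq, C_eq_zero] at h0
    rw [h0, C_0]

/-- fibres of a generically integral extension are nonempty where the leading factor `y` does not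
vanish -/
theorem map_ne_top {R S : Type*} [CommRing R] [CommRing S] [Algebra R S] [FaithfulSMul R S]
    (y : R) (hpow : ∀ s : S, ∃ k : ℕ, IsIntegral R ((algebraMap R S y) ^ k * s))
    (P : Ideal R) [hP : P.IsMaximal] (hy : y ∉ P) {τ : Type*} [Fintype τ] (r : τ → R)
    (hr : ∀ b, r b ∈ P) :
    Ideal.span (Set.range fun b => algebraMap R S (r b)) ≠ ⊤ := by
  classical
  intro htop
  have h1 : (1 : S) ∈ Ideal.span (Set.range fun b => algebraMap R S (r b)) := by
    rw [htop]; exact Submodule.mem_top
  rw [Ideal.mem_span_range_iff_exists_fun] at h1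
  obtain ⟨c, hc⟩ := h1
  choose k hk using fun b => hpow (c b)
  obtain ⟨Q, hQ, hQc⟩ := Ideal.exists_ideal_over_maximal_of_isIntegral
    (S := integralClosure R S) P (by
      have : Function.Injective (algebraMap R (integralClosure R S)) := fun u v huv =>
        FaithfulSMul.algebraMap_injective R S (congrArg (Subtype.val) huv)
      rw [(RingHom.injective_iff_ker_eq_bot _).1 this]
      exact bot_le)
  let K := ∑ b, k b
  have hK : ∀ b, IsIntegral R ((algebraMap R S y) ^ K * c b) := by
    intro b
    have hle : k b ≤ K := Finset.single_le_sum (fun _ _ => Nat.zero_le _) (Finset.mem_univ b)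
    have : (algebraMap R S y) ^ K * c b =
        (algebraMap R S y) ^ (K - k b) * ((algebraMap R S y) ^ (k b) * c b) := by
      rw [← mul_assoc, ← pow_add]
      congr 2
      omega
    rw [this]
    exact (isIntegral_algebraMap.pow _).mul (hk b)
  have hrQ : ∀ b, algebraMap R (integralClosure R S) (r b) ∈ Q := by
    intro b
    have := hr b
    rw [← hQc, Ideal.mem_comap] at this
    exact this
  have hsum : (algebraMap R (integralClosure R S) y) ^ K =
      ∑ b, (⟨(algebraMap R S y) ^ K * c b, hK b⟩ : integralClosure R S) *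
        algebraMap R (integralClosure R S) (r b) := by
    apply Subtype.ext
    have h2 : ((∑ b, (⟨(algebraMap R S y) ^ K * c b, hK b⟩ : integralClosure R S) *
        algebraMap R (integralClosure R S) (r b) : integralClosure R S) : S) =
        ∑ b, ((algebraMap R S y) ^ K * c b) * algebraMap R S (r b) := by
      rw [AddSubmonoidClass.coe_finsetSum]
      rfl
    rw [h2]
    have h3 : ((algebraMap R (integralClosure R S) y ^ K : integralClosure R S) : S) =
        (algebraMap R S y) ^ K := rfl
    rw [h3]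
    have h4 : ∀ b, ((algebraMap R S y) ^ K * c b) * algebraMap R S (r b) =
        (algebraMap R S y) ^ K * (c b * algebraMap R S (r b)) :=
      fun b => mul_assoc _ _ _
    simp only [h4, ← Finset.mul_sum]
    rw [hc, mul_one]
  have hQy : (algebraMap R (integralClosure R S) y) ^ K ∈ Q := by
    rw [hsum]
    exact Q.sum_mem fun b _ => Q.mul_mem_left _ (hrQ b)
  have hQy' := hQ.isPrime.mem_of_pow_mem _ hQy
  apply hy
  rw [← hQc, Ideal.mem_comap]
  exact hQy'

/-- Algebraically independent polynomials, as many as variables: the map is onto the complement of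
a hypersurface. -/
theorem dominant_of_algInd {σ τ : Type} [Fintype σ] [Fintype τ] (θ : τ → MvPolynomial σ ℂ)
    (hθ : AlgebraicIndependent ℂ θ) (hcard : Fintype.card σ ≤ Fintype.card τ) :
    ∃ G : MvPolynomial τ ℂ, G ≠ 0 ∧ ∀ w : τ → ℂ, eval w G ≠ 0 →
      ∃ x : σ → ℂ, ∀ b, eval x (θ b) = w b := by
  classical
  have hb : IsTranscendenceBasis ℂ θ := by
    refine hθ.isTranscendenceBasis_of_trdeg_le_of_finite ?_
    rw [MvPolynomial.trdeg_of_isDomain]
    simp only [Cardinal.lift_id, Cardinal.mk_fintype]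
    exact_mod_cast hcard
  have halg : Algebra.IsAlgebraic (Algebra.adjoin ℂ (Set.range θ)) (MvPolynomial σ ℂ) :=
    hb.isAlgebraic
  obtain ⟨y, hy0, hy⟩ := Algebra.IsAlgebraic.exists_integral_multiples
    (Algebra.adjoin ℂ (Set.range θ))
    (Finset.univ.image fun a : σ => (X a : MvPolynomial σ ℂ))
  let e : MvPolynomial τ ℂ ≃ₐ[ℂ] (Algebra.adjoin ℂ (Set.range θ)) := hθ.aevalEquiv
  refine ⟨e.symm y, fun h => hy0 ((map_eq_zero_iff e.symm e.symm.injective).1 h),
    fun w hw => ?_⟩
  -- the homomorphism `R → ℂ`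
  let φ : (Algebra.adjoin ℂ (Set.range θ)) →ₐ[ℂ] ℂ := (aeval w).comp e.symm.toAlgHom
  have hmem : ∀ b, θ b ∈ Algebra.adjoin ℂ (Set.range θ) :=
    fun b => Algebra.subset_adjoin (Set.mem_range_self b)
  have hφθ : ∀ b, φ ⟨θ b, hmem b⟩ = w b := by
    intro b
    have h1 : e (X b) = ⟨θ b, hmem b⟩ := by
      apply Subtype.ext
      have := hθ.algebraMap_aevalEquiv (X b)
      rw [aeval_X] at this
      exact this
    have h2 : e.symm ⟨θ b, hmem b⟩ = X b := by rw [← h1]; exact e.symm_apply_apply _
    change aeval w (e.symm ⟨θ b, hmem b⟩) = w b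
    rw [h2, aeval_X]
  have hφy : φ y ≠ 0 := by
    change aeval w (e.symm y) ≠ 0
    rw [aeval_eq_eval]
    exact hw
  have hφs : Function.Surjective φ :=
    fun c => ⟨algebraMap ℂ (Algebra.adjoin ℂ (Set.range θ)) c, by simp⟩
  have hmax : (RingHom.ker φ).IsMaximal := RingHom.ker_isMaximal_of_surjective φ hφs
  have hpow : ∀ s : MvPolynomial σ ℂ, ∃ k : ℕ, IsIntegral (Algebra.adjoin ℂ (Set.range θ))
      ((algebraMap (Algebra.adjoin ℂ (Set.range θ)) (MvPolynomial σ ℂ) y) ^ k * s) := by
    intro s
    induction s using MvPolynomial.induction_on with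
    | C c =>
      refine ⟨0, ?_⟩
      have : (algebraMap (Algebra.adjoin ℂ (Set.range θ)) (MvPolynomial σ ℂ) y) ^ 0 * C c =
          algebraMap (Algebra.adjoin ℂ (Set.range θ)) (MvPolynomial σ ℂ)
            (algebraMap ℂ (Algebra.adjoin ℂ (Set.range θ)) c) := by
        rw [pow_zero, one_mul]; rfl
      rw [this]
      exact isIntegral_algebraMap
    | add p q hp hq =>
      obtain ⟨k, hk⟩ := hp
      obtain ⟨l, hl⟩ := hq
      refine ⟨k + l, ?_⟩
      generalize hyy : algebraMap (Algebra.adjoin ℂ (Set.range θ)) (MvPolynomial σ ℂ) y = yy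
        at hk hl ⊢
      have hyi : IsIntegral (Algebra.adjoin ℂ (Set.range θ)) yy := by
        rw [← hyy]; exact isIntegral_algebraMap
      have : yy ^ (k + l) * (p + q) = yy ^ l * (yy ^ k * p) + yy ^ k * (yy ^ l * q) := by ring
      rw [this]
      exact ((hyi.pow _).mul hk).add ((hyi.pow _).mul hl)
    | mul_X p a hp =>
      obtain ⟨k, hk⟩ := hp
      refine ⟨k + 1, ?_⟩
      have h1 := hy _ (Finset.mem_image_of_mem _ (Finset.mem_univ a))
      rw [Algebra.smul_def] at h1
      generalize algebraMap (Algebra.adjoin ℂ (Set.range θ)) (MvPolynomial σ ℂ) y = yy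
        at hk h1 ⊢
      have : yy ^ (k + 1) * (p * X a) = (yy ^ k * p) * (yy * X a) := by ring
      rw [this]
      exact hk.mul h1
  -- the ideal of the fibre is proper
  have hI := map_ne_top y hpow (RingHom.ker φ) (fun h => hφy h)
    (fun b : τ => (⟨θ b, hmem b⟩ : Algebra.adjoin ℂ (Set.range θ)) -
      algebraMap ℂ (Algebra.adjoin ℂ (Set.range θ)) (w b))
    (fun b => by
      rw [RingHom.mem_ker, map_sub, hφθ]
      simp)
  obtain ⟨M, hM, hIM⟩ := Ideal.exists_le_maximal _ hI
  obtain ⟨x, hx⟩ := (isMaximal_iff_eq_vanishingIdeal_singleton).1 hM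
  refine ⟨x, fun b => ?_⟩
  have h1 : θ b - C (w b) ∈ M := hIM (Ideal.subset_span ⟨b, rfl⟩)
  rw [hx, mem_vanishingIdeal_singleton_iff] at h1
  simp only [map_sub, aeval_C, Algebra.algebraMap_self, RingHom.id_apply] at h1
  have h2 := sub_eq_zero.1 h1
  rw [aeval_eq_eval] at h2
  exact h2

/-- Dominance from surjectivity of the differential at one point: if no nontrivial combination of
the `θ b` has zero differential at `p`, the map is onto the complement of a hypersurface. -/
theorem dominant_of_jac {σ τ : Type} [Fintype σ] [Fintype τ] (θ : τ → MvPolynomial σ ℂ)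
    (p : σ → ℂ)
    (hp : ∀ f : τ → ℂ, (∀ a, ∑ b, f b * eval p (pderiv a (θ b)) = 0) → f = 0) :
    ∃ G : MvPolynomial τ ℂ, G ≠ 0 ∧ ∀ w : τ → ℂ, eval w G ≠ 0 →
      ∃ x : σ → ℂ, ∀ b, eval x (θ b) = w b := by
  classical
  -- right inverse of the Jacobian
  let J : Matrix σ τ ℂ := Matrix.of fun a b => eval p (pderiv a (θ b))
  have hinj : Function.Injective J.mulVecLin := by
    rw [← LinearMap.ker_eq_bot, LinearMap.ker_eq_bot']
    intro f hf
    apply hp
    intro a
    have := congrFun hf a
    simp only [Matrix.mulVecLin_apply, Matrix.mulVec, dotProduct, Pi.zero_apply] at this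
    rw [← this]
    exact Finset.sum_congr rfl fun b _ => mul_comm _ _
  obtain ⟨B', hB'⟩ := LinearMap.exists_leftInverse_of_injective J.mulVecLin
    (LinearMap.ker_eq_bot.2 hinj)
  let B : Matrix τ σ ℂ := LinearMap.toMatrix' B'
  have hBJ : B * J = 1 := by
    have : LinearMap.toMatrix' (B' ∘ₗ J.mulVecLin) = 1 := by rw [hB']; exact LinearMap.toMatrix'_id
    rw [LinearMap.toMatrix'_comp] at this
    have h2 : LinearMap.toMatrix' J.mulVecLin = J := LinearMap.toMatrix'_toLin' J
    rw [h2] at this
    exact this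
  -- the slice `y ↦ p + Bᵀ y`
  let ℓ : σ → MvPolynomial τ ℂ := fun a => C (p a) + ∑ b, C (B b a) * X b
  let θ' : τ → MvPolynomial τ ℂ := fun b => aeval ℓ (θ b)
  have hℓ0 : ∀ a, eval (0 : τ → ℂ) (ℓ a) = p a := by
    intro a
    simp [ℓ]
  have hℓd : ∀ a c, pderiv c (ℓ a) = C (B c a) := by
    intro a c
    simp only [ℓ, map_add, pderiv_C, map_sum, zero_add]
    rw [Finset.sum_eq_single c]
    · rw [pderiv_C_mul, pderiv_X_self, mul_one]
    · intro b _ hb
      rw [pderiv_C_mul, pderiv_X_of_ne hb, mul_zero]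
    · intro h
      exact absurd (Finset.mem_univ c) h
  have hcomp : ∀ (q : MvPolynomial σ ℂ) (y : τ → ℂ), eval y (aeval ℓ q) =
      eval (fun a => eval y (ℓ a)) q := by
    intro q y
    rw [← aeval_eq_eval, ← aeval_eq_eval]
    change (aeval y).comp (aeval ℓ) q = _
    congr 1
    ext a
    simp [aeval_eq_eval]
  have hjac : (Matrix.of fun a b => pderiv a (θ' b)).det ≠ 0 := by
    intro h0
    have h1 : (((Matrix.of fun a b => pderiv a (θ' b)) : Matrix τ τ (MvPolynomial τ ℂ)).map
        (eval (0 : τ → ℂ))) = B * J := by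
      ext c b
      rw [Matrix.map_apply, Matrix.of_apply, Matrix.mul_apply, pderiv_aeval, map_sum]
      refine Finset.sum_congr rfl fun a _ => ?_
      rw [map_mul, hcomp, hℓd, eval_C, mul_comm]
      congr 2
      simp only [hℓ0]
      rfl
    have h2 := congrArg (eval (0 : τ → ℂ)) h0
    rw [RingHom.map_det, map_zero] at h2
    change (((Matrix.of fun a b => pderiv a (θ' b)) : Matrix τ τ (MvPolynomial τ ℂ)).map
        (eval (0 : τ → ℂ))).det = 0 at h2
    rw [h1, hBJ, Matrix.det_one] at h2
    exact one_ne_zero h2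
  have hind : AlgebraicIndependent ℂ θ' := by
    rw [algebraicIndependent_iff]
    intro F hF
    exact algInd_of_jac θ' hjac _ F le_rfl hF
  obtain ⟨G, hG, hw⟩ := dominant_of_algInd θ' hind le_rfl
  refine ⟨G, hG, fun w hwG => ?_⟩
  obtain ⟨y, hy⟩ := hw w hwG
  refine ⟨fun a => eval y (ℓ a), fun b => ?_⟩
  rw [← hy b, hcomp]

/-- Fewer parameters than coordinates: the image lies in a hypersurface. -/
theorem image_in_hypersurface {σ τ : Type} [Fintype σ] [Fintype τ] (θ : τ → MvPolynomial σ ℂ)
    (hcard : Fintype.card σ < Fintype.card τ) :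
    ∃ F : MvPolynomial τ ℂ, F ≠ 0 ∧ ∀ x : σ → ℂ, eval (fun b => eval x (θ b)) F = 0 := by
  classical
  by_contra hcon
  push Not at hcon
  have hind : AlgebraicIndependent ℂ θ := by
    rw [algebraicIndependent_iff]
    intro F hF
    by_contra hF0
    obtain ⟨x, hx⟩ := hcon F hF0
    apply hx
    have h1 : eval x (aeval θ F) = 0 := by rw [hF, map_zero]
    rw [← h1, ← aeval_eq_eval, ← aeval_eq_eval]
    change _ = (aeval x).comp (aeval θ) F
    congr 1
    ext b
    simp [aeval_eq_eval]
  have h1 := hind.cardinalMk_le_trdeg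
  rw [MvPolynomial.trdeg_of_isDomain] at h1
  simp only [Cardinal.lift_id, Cardinal.mk_fintype] at h1
  have h2 : Fintype.card τ ≤ Fintype.card σ := by exact_mod_cast h1
  omega

end Pool.Agent.Waring
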