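import Mathlib

/-!
# Generic properties of points of `ℂ^σ`, polynomials of degree `< m` in two variables (helper88)
-/

set_option autoImplicit false

open MvPolynomial Finset

namespace Pool.Agent.Waring

/-! ## polynomial functions -/

/-- polynomial functions -/
def PolyFn {σ : Type} (φ : (σ → ℂ) → ℂ) : Prop := ∃ g : MvPolynomial σ ℂ, ∀ z, φ z = eval z g

lemma PolyFn.const {σ : Type} (c : ℂ) : PolyFn (fun _ : σ → ℂ => c) := ⟨C c, fun z => by simp⟩

lemma PolyFn.coord {σ : Type} (a : σ) : PolyFn (fun z : σ → ℂ => z a) := ⟨X a, fun z => by simp⟩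

lemma PolyFn.add {σ : Type} {φ ψ : (σ → ℂ) → ℂ} (h1 : PolyFn φ) (h2 : PolyFn ψ) :
    PolyFn (fun z => φ z + ψ z) := by
  obtain ⟨g, hg⟩ := h1
  obtain ⟨k, hk⟩ := h2
  exact ⟨g + k, fun z => by show φ z + ψ z = _; rw [hg, hk, map_add]⟩

lemma PolyFn.mul {σ : Type} {φ ψ : (σ → ℂ) → ℂ} (h1 : PolyFn φ) (h2 : PolyFn ψ) :
    PolyFn (fun z => φ z * ψ z) := by
  obtain ⟨g, hg⟩ := h1
  obtain ⟨k, hk⟩ := h2
  exact ⟨g * k, fun z => by show φ z * ψ z = _; rw [hg, hk, map_mul]⟩

lemma PolyFn.pow {σ : Type} {φ : (σ → ℂ) → ℂ} (h1 : PolyFn φ) (n : ℕ) :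
    PolyFn (fun z => φ z ^ n) := by
  obtain ⟨g, hg⟩ := h1
  exact ⟨g ^ n, fun z => by show φ z ^ n = _; rw [hg, map_pow]⟩

lemma PolyFn.sum {σ κ : Type} (s : Finset κ) {φ : κ → (σ → ℂ) → ℂ} (h : ∀ k ∈ s, PolyFn (φ k)) :
    PolyFn (fun z => ∑ k ∈ s, φ k z) := by
  classical
  induction s using Finset.induction_on with
  | empty => simpa using PolyFn.const (σ := σ) 0
  | insert a s ha ih =>
    have := (h a (mem_insert_self a s)).add (ih fun k hk => h k (mem_insert_of_mem hk))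
    simpa only [Finset.sum_insert ha] using this

/-! ## generic properties -/

/-- `Q` holds outside a hypersurface -/
def Gen {σ : Type} (Q : (σ → ℂ) → Prop) : Prop :=
  ∃ g : MvPolynomial σ ℂ, g ≠ 0 ∧ ∀ z, eval z g ≠ 0 → Q z

lemma exists_eval_ne {σ : Type} {g : MvPolynomial σ ℂ} (hg : g ≠ 0) : ∃ z : σ → ℂ, eval z g ≠ 0 := by
  by_contra hcon
  push Not at hcon
  exact hg (MvPolynomial.funext fun z => by rw [hcon z, map_zero])

lemma Gen.exists {σ : Type} {Q : (σ → ℂ) → Prop} (h : Gen Q) : ∃ z, Q z := by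
  obtain ⟨g, hg, hQ⟩ := h
  obtain ⟨z, hz⟩ := exists_eval_ne hg
  exact ⟨z, hQ z hz⟩

lemma Gen.mono {σ : Type} {Q Q' : (σ → ℂ) → Prop} (h : Gen Q) (hh : ∀ z, Q z → Q' z) : Gen Q' := by
  obtain ⟨g, hg, hQ⟩ := h
  exact ⟨g, hg, fun z hz => hh z (hQ z hz)⟩

lemma Gen.of_forall {σ : Type} {Q : (σ → ℂ) → Prop} (h : ∀ z, Q z) : Gen Q :=
  ⟨1, one_ne_zero, fun z _ => h z⟩

lemma Gen.and {σ : Type} {Q Q' : (σ → ℂ) → Prop} (h : Gen Q) (h' : Gen Q') :
    Gen (fun z => Q z ∧ Q' z) := by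
  obtain ⟨g, hg, hQ⟩ := h
  obtain ⟨g', hg', hQ'⟩ := h'
  refine ⟨g * g', mul_ne_zero hg hg', fun z hz => ?_⟩
  rw [map_mul] at hz
  exact ⟨hQ z (left_ne_zero_of_mul hz), hQ' z (right_ne_zero_of_mul hz)⟩

lemma Gen.all {σ κ : Type} [Fintype κ] {Q : κ → (σ → ℂ) → Prop} (h : ∀ k, Gen (Q k)) :
    Gen (fun z => ∀ k, Q k z) := by
  classical
  choose g hg hQ using h
  refine ⟨∏ k, g k, Finset.prod_ne_zero_iff.2 fun k _ => hg k, fun z hz k => ?_⟩
  rw [map_prod, Finset.prod_ne_zero_iff] at hz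
  exact hQ k z (hz k (mem_univ k))

lemma Gen.coord_ne {σ : Type} (a : σ) : Gen (fun z : σ → ℂ => z a ≠ 0) :=
  ⟨X a, X_ne_zero a, fun z hz => by simpa using hz⟩

/-- a linear system depending polynomially on `z` which is injective at one point is injective
generically -/
theorem Gen.of_point {σ : Type} {E : Type} [AddCommGroup E] [Module ℂ E] (U : Submodule ℂ E)
    [FiniteDimensional ℂ U] {R : Type} [Fintype R] (lam : (σ → ℂ) → R → E →ₗ[ℂ] ℂ)
    (hpoly : ∀ r u, PolyFn fun z => lam z r u) (z0 : σ → ℂ)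
    (h0 : ∀ u ∈ U, (∀ r, lam z0 r u = 0) → u = 0) :
    Gen (fun z => ∀ u ∈ U, (∀ r, lam z r u = 0) → u = 0) := by
  classical
  let b := Module.finBasis ℂ U
  let n := Module.finrank ℂ U
  choose g hg using fun (r : R) (k : Fin n) => hpoly r (b k : E)
  -- the matrix of the system
  let A : (σ → ℂ) → Matrix R (Fin n) ℂ := fun z => Matrix.of fun r k => lam z r (b k : E)
  have hA : ∀ z (v : Fin n → ℂ), (A z).mulVec v =
      fun r => lam z r ((∑ k, v k • b k : U) : E) := by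
    intro z v
    funext r
    simp only [A, Matrix.mulVec, dotProduct, Matrix.of_apply, Submodule.coe_sum,
      Submodule.coe_smul, map_sum, map_smul, smul_eq_mul]
    exact Finset.sum_congr rfl fun k _ => mul_comm _ _
  have hinj : Function.Injective (A z0).mulVecLin := by
    rw [← LinearMap.ker_eq_bot, LinearMap.ker_eq_bot']
    intro v hv
    rw [Matrix.mulVecLin_apply, hA] at hv
    have h1 := h0 _ (∑ k, v k • b k : U).2 (fun r => congrFun hv r)
    have h2 : (∑ k, v k • b k : U) = 0 := Subtype.ext h1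
    have h3 := Fintype.linearIndependent_iff.1 b.linearIndependent v h2
    exact funext h3
  obtain ⟨B', hB'⟩ := LinearMap.exists_leftInverse_of_injective (A z0).mulVecLin
    (LinearMap.ker_eq_bot.2 hinj)
  let B : Matrix (Fin n) R ℂ := LinearMap.toMatrix' B'
  have hBA : B * A z0 = 1 := by
    have h1 : LinearMap.toMatrix' (B' ∘ₗ (A z0).mulVecLin) = 1 := by
      rw [hB']; exact LinearMap.toMatrix'_id
    rw [LinearMap.toMatrix'_comp] at h1
    have h2 : LinearMap.toMatrix' (A z0).mulVecLin = A z0 := LinearMap.toMatrix'_toLin' _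
    rw [h2] at h1
    exact h1
  let P : Matrix (Fin n) (Fin n) (MvPolynomial σ ℂ) :=
    Matrix.of fun k l => ∑ r, C (B k r) * g r l
  have hP : ∀ z, eval z P.det = (B * A z).det := by
    intro z
    rw [RingHom.map_det]
    congr 1
    ext k l
    simp only [P, RingHom.mapMatrix_apply, Matrix.map_apply, Matrix.of_apply, map_sum, map_mul,
      eval_C, Matrix.mul_apply, A]
    exact Finset.sum_congr rfl fun r _ => by rw [← hg r l z]
  refine ⟨P.det, fun h => ?_, fun z hz u hu hr => ?_⟩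
  · have := hP z0
    rw [h, map_zero, hBA, Matrix.det_one] at this
    exact zero_ne_one this
  · rw [hP] at hz
    let v : Fin n → ℂ := b.repr ⟨u, hu⟩
    have hv : (∑ k, v k • b k : U) = ⟨u, hu⟩ := b.sum_repr ⟨u, hu⟩
    have h1 : (A z).mulVec v = 0 := by
      rw [hA, hv]
      funext r
      exact hr r
    have h2 : (B * A z).mulVec v = 0 := by
      rw [← Matrix.mulVec_mulVec, h1, Matrix.mulVec_zero]
    have h3 := Matrix.eq_zero_of_mulVec_eq_zero hz h2
    have h4 : (⟨u, hu⟩ : U) = 0 := by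
      rw [← hv, h3]
      simp
    exact congrArg Subtype.val h4

/-! ## general position on a line -/

theorem kill {E X : Type} [AddCommGroup E] [Module ℂ E] [Infinite X] (lam : X → E →ₗ[ℂ] ℂ)
    (r : ℕ) : ∀ (Y : Submodule ℂ E) [FiniteDimensional ℂ Y], Module.finrank ℂ Y ≤ r →
    (∀ y ∈ Y, y ≠ 0 → ∀ F : Finset X, ∃ x ∉ F, lam x y ≠ 0) → ∀ F : Finset X,
    ∃ U : Finset X, U.card = r ∧ Disjoint U F ∧ ∀ y ∈ Y, (∀ x ∈ U, lam x y = 0) → y = 0 := by
  classical
  induction r with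
  | zero =>
    intro Y _ hY _ F
    have h0 : Y = ⊥ := Submodule.finrank_eq_zero.1 (by omega)
    refine ⟨∅, rfl, by simp, fun y hy _ => ?_⟩
    rw [h0] at hy
    exact (Submodule.mem_bot ℂ).1 hy
  | succ r ih =>
    intro Y _ hY hH F
    by_cases hbot : Y = ⊥
    · obtain ⟨U, hU, hc⟩ :=
        (Finset.finite_toSet F).infinite_compl.exists_subset_card_eq (r + 1)
      refine ⟨U, hc, ?_, fun y hy _ => ?_⟩
      · rw [Finset.disjoint_left]
        intro x hx hxF
        exact hU hx hxF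
      · rw [hbot] at hy
        exact (Submodule.mem_bot ℂ).1 hy
    · obtain ⟨y, hy, hy0⟩ := Submodule.exists_mem_ne_zero_of_ne_bot hbot
      obtain ⟨x, hxF, hx⟩ := hH y hy hy0 F
      have hlt : Y ⊓ LinearMap.ker (lam x) < Y := by
        refine lt_of_le_of_ne inf_le_left fun h => hx ?_
        have : y ∈ Y ⊓ LinearMap.ker (lam x) := by rw [h]; exact hy
        exact this.2
      have hfin : FiniteDimensional ℂ (Y ⊓ LinearMap.ker (lam x) : Submodule ℂ E) :=
        Submodule.finiteDimensional_inf_left _ _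
      have hlt2 := Submodule.finrank_lt_finrank_of_lt hlt
      obtain ⟨U, hU, hd, hk⟩ := ih (Y ⊓ LinearMap.ker (lam x)) (by omega)
        (fun y hy hy0 F => hH y hy.1 hy0 F) (insert x F)
      rw [Finset.disjoint_insert_right] at hd
      refine ⟨insert x U, ?_, ?_, fun y hy hz => ?_⟩
      · rw [Finset.card_insert_of_notMem hd.1, hU]
      · rw [Finset.disjoint_insert_left]
        exact ⟨hxF, hd.2⟩
      · exact hk y ⟨hy, hz x (Finset.mem_insert_self x U)⟩
          fun x' hx' => hz x' (Finset.mem_insert_of_mem hx')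

end Pool.Agent.Waring
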