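import Pool.Agent.Lib_helper88.Waring.Defs
import Pool.Agent.Lib_helper88.Waring.Dom
import Pool.Agent.Lib_helper88.Waring.Gen

/-!
# Simultaneous Waring decompositions: reduction to dual kernels (helper88)
-/

set_option autoImplicit false

open MvPolynomial Finset

namespace Pool.Agent.Waring

/-- exponents of the monomials of degree `d` in `n + 1` variables -/
abbrev Mon (n d : ℕ) : Type :=
  {α : Fin (n + 1) →₀ ℕ // α ∈ Finset.finsuppAntidiag (Finset.univ : Finset (Fin (n + 1))) d}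

lemma card_Mon (n d : ℕ) : Fintype.card (Mon n d) = (n + d).choose n := by
  rw [Fintype.card_coe, Finset.card_finsuppAntidiag_nat_eq_choose, Finset.card_univ,
    Fintype.card_fin]
  have : n + 1 + d - 1 = n + d := by omega
  rw [this, Nat.choose_symm_add]

lemma mem_Mon {n d : ℕ} {α : Fin (n + 1) →₀ ℕ} :
    α ∈ Finset.finsuppAntidiag (Finset.univ : Finset (Fin (n + 1))) d ↔ ∑ k, α k = d := by
  simp [Finset.mem_finsuppAntidiag]

lemma coeff_eq_zero_of_hom {n d : ℕ} {f : MvPolynomial (Fin (n + 1)) ℂ} (hf : f.IsHomogeneous d)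
    {α : Fin (n + 1) →₀ ℕ} (hα : ∑ k, α k ≠ d) : coeff α f = 0 := by
  by_contra hc
  apply hα
  have h1 := hf hc
  have h2 : α.degree = d := by
    rw [Finsupp.degree_eq_weight_one]
    exact h1
  rwa [Finsupp.degree_eq_sum] at h2

/-- coefficients of a power of a linear form -/
lemma coeff_lin_pow {n : ℕ} (l : Fin (n + 1) → ℂ) (d : ℕ) (α : Fin (n + 1) →₀ ℕ) :
    coeff α ((∑ k, C (l k) * X k : MvPolynomial (Fin (n + 1)) ℂ) ^ d) =
      if ∑ k, α k = d then (Nat.multinomial univ α : ℂ) * ∏ k, l k ^ α k else 0 := by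
  classical
  rw [Finset.sum_pow_eq_sum_piAntidiag, coeff_sum]
  have h1 : ∀ k : Fin (n + 1) → ℕ,
      coeff α ((Nat.multinomial univ k : MvPolynomial (Fin (n + 1)) ℂ) *
        ∏ i, (C (l i) * X i : MvPolynomial (Fin (n + 1)) ℂ) ^ k i) =
      if k = α then (Nat.multinomial univ α : ℂ) * ∏ k, l k ^ α k else 0 := by
    intro k
    have e1 : (∏ i, (C (l i) * X i : MvPolynomial (Fin (n + 1)) ℂ) ^ k i) =
        C (∏ i, l i ^ k i) * monomial (Finsupp.equivFunOnFinite.symm k) 1 := by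
      rw [monomial_eq, Finsupp.prod_fintype _ _ (by simp)]
      simp only [mul_pow, Finset.prod_mul_distrib, map_prod, map_pow, C_1, one_mul,
        Finsupp.equivFunOnFinite_symm_apply_apply]
    have e2 : (Nat.multinomial univ k : MvPolynomial (Fin (n + 1)) ℂ) =
        C ((Nat.multinomial univ k : ℕ) : ℂ) := by simp
    rw [e1, e2, coeff_C_mul, coeff_C_mul, coeff_monomial]
    by_cases hk : k = α
    · have hk' : Finsupp.equivFunOnFinite.symm k = α := by
        rw [hk]; exact Finsupp.ext fun _ => rfl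
      rw [if_pos hk', if_pos hk, hk, mul_one]
    · have hk' : ¬ Finsupp.equivFunOnFinite.symm k = α := by
        intro h
        apply hk
        rw [← h]
        rfl
      rw [if_neg hk', if_neg hk, mul_zero, mul_zero]
  rw [Finset.sum_congr rfl fun k _ => h1 k, Finset.sum_ite_eq']
  congr 1
  rw [Finset.mem_piAntidiag]
  simp

/-- the decomposition in terms of the coefficients -/
lemma rep_iff {n d h s : ℕ} (f : Fin s → MvPolynomial (Fin (n + 1)) ℂ)
    (hf : ∀ j, (f j).IsHomogeneous d) (l : Fin h → Fin (n + 1) → ℂ) (c : Fin s → Fin h → ℂ) :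
    (∀ j, f j = ∑ i, C (c j i) * (∑ k, C (l i k) * X k) ^ d) ↔
      ∀ j (α : Mon n d), coeff α.1 (f j) =
        ∑ i, c j i * ((Nat.multinomial univ α.1 : ℂ) * ∏ k, l i k ^ α.1 k) := by
  have h1 : ∀ j (α : Fin (n + 1) →₀ ℕ),
      coeff α (∑ i, C (c j i) * (∑ k, C (l i k) * X k : MvPolynomial (Fin (n + 1)) ℂ) ^ d) =
      if ∑ k, α k = d then ∑ i, c j i * ((Nat.multinomial univ α : ℂ) * ∏ k, l i k ^ α k)
      else 0 := by
    intro j α
    rw [coeff_sum]
    simp only [coeff_C_mul, coeff_lin_pow]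
    split_ifs <;> simp
  constructor
  · intro H j α
    rw [H j, h1, if_pos (mem_Mon.1 α.2)]
  · intro H j
    ext α
    rw [h1]
    split_ifs with hα
    · exact H j ⟨α, mem_Mon.2 hα⟩
    · exact coeff_eq_zero_of_hom (hf j) hα

/-- polynomials with given coefficients -/
noncomputable def ofCoeff {n d s : ℕ} (w : Fin s × Mon n d → ℂ) (j : Fin s) :
    MvPolynomial (Fin (n + 1)) ℂ := ∑ α : Mon n d, monomial α.1 (w (j, α))

lemma ofCoeff_hom {n d s : ℕ} (w : Fin s × Mon n d → ℂ) (j : Fin s) :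
    (ofCoeff w j).IsHomogeneous d := by
  refine IsHomogeneous.sum _ _ _ fun α _ => isHomogeneous_monomial _ ?_
  rw [Finsupp.degree_eq_sum]
  exact mem_Mon.1 α.2

lemma coeff_ofCoeff {n d s : ℕ} (w : Fin s × Mon n d → ℂ) (j : Fin s) (α : Mon n d) :
    coeff α.1 (ofCoeff w j) = w (j, α) := by
  classical
  rw [ofCoeff, coeff_sum]
  simp only [coeff_monomial]
  rw [Finset.sum_eq_single α]
  · simp
  · intro β _ hβ
    rw [if_neg]
    intro h
    exact hβ (Subtype.ext h)
  · intro h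
    exact absurd (mem_univ _) h

lemma coeff_ofCoeff_of_ne {n d s : ℕ} (w : Fin s × Mon n d → ℂ) (j : Fin s)
    {α : Fin (n + 1) →₀ ℕ} (h : ∑ k, α k ≠ d) : coeff α (ofCoeff w j) = 0 :=
  coeff_eq_zero_of_hom (ofCoeff_hom w j) h

/-- `W` from a statement about coefficient vectors -/
theorem W_of_dense {d h n s : ℕ}
    (H : ∃ G : MvPolynomial (Fin s × Mon n d) ℂ, G ≠ 0 ∧ ∀ w, eval w G ≠ 0 →
      ∃ (l : Fin h → Fin (n + 1) → ℂ) (c : Fin s → Fin h → ℂ), ∀ j (α : Mon n d),
        w (j, α) = ∑ i, c j i * ∏ k, l i k ^ α.1 k) : W d h n s := by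
  classical
  obtain ⟨G, hG, H⟩ := H
  let μ : Mon n d → ℂ := fun α => (Nat.multinomial univ α.1 : ℂ)
  have hμ : ∀ α, μ α ≠ 0 := fun α => by
    have := Nat.multinomial_pos (univ : Finset (Fin (n + 1))) α.1
    exact Nat.cast_ne_zero.2 this.ne'
  let G' : MvPolynomial (Fin s × (Fin (n + 1) →₀ ℕ)) ℂ :=
    aeval (fun b : Fin s × Mon n d => (C (μ b.2)⁻¹ * X (b.1, b.2.1) :
      MvPolynomial (Fin s × (Fin (n + 1) →₀ ℕ)) ℂ)) G
  have hG' : ∀ v : Fin s × (Fin (n + 1) →₀ ℕ) → ℂ,
      eval v G' = eval (fun b : Fin s × Mon n d => (μ b.2)⁻¹ * v (b.1, b.2.1)) G := by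
    intro v
    simp only [G', aeval_def, ← coe_eval₂Hom]
    rw [← RingHom.comp_apply]
    have : ((eval v).comp (eval₂Hom (algebraMap ℂ (MvPolynomial (Fin s × (Fin (n + 1) →₀ ℕ)) ℂ))
        (fun b : Fin s × Mon n d => (C (μ b.2)⁻¹ * X (b.1, b.2.1) :
      MvPolynomial (Fin s × (Fin (n + 1) →₀ ℕ)) ℂ)))) =
        eval (fun b : Fin s × Mon n d => (μ b.2)⁻¹ * v (b.1, b.2.1)) := by
      apply MvPolynomial.ringHom_ext
      · intro r
        simp [algebraMap_eq]
      · intro b
        simp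
    rw [this]
  refine ⟨G', ?_, ?_⟩
  · obtain ⟨w, hw⟩ := exists_eval_ne hG
    refine ⟨ofCoeff fun b : Fin s × Mon n d => μ b.2 * w b, ofCoeff_hom _, ?_⟩
    rw [hG']
    have : (fun b : Fin s × Mon n d => (μ b.2)⁻¹ *
        coeffs (ofCoeff fun b : Fin s × Mon n d => μ b.2 * w b) (b.1, b.2.1)) = w := by
      funext b
      rw [coeffs, coeff_ofCoeff, ← mul_assoc, inv_mul_cancel₀ (hμ _), one_mul]
    rw [this]
    exact hw
  · intro f hf hfG
    rw [hG'] at hfG
    obtain ⟨l, c, hlc⟩ := H _ hfG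
    refine ⟨l, c, (rep_iff f hf l c).2 fun j α => ?_⟩
    have h1 := hlc j α
    have h2 : coeff α.1 (f j) = μ α * ((μ α)⁻¹ * coeffs f (j, α.1)) := by
      rw [← mul_assoc, mul_inv_cancel₀ (hμ _), one_mul]
      rfl
    rw [h2, h1, Finset.mul_sum]
    exact Finset.sum_congr rfl fun i _ => by simp only [μ]; ring

/-- the decomposable tuples with property `W` avoid no hypersurface -/
theorem W.exists_rep {d h n s : ℕ} (H : W d h n s) (F : MvPolynomial (Fin s × Mon n d) ℂ)
    (hF : F ≠ 0) : ∃ w, eval w F ≠ 0 ∧ ∃ (l : Fin h → Fin (n + 1) → ℂ) (c : Fin s → Fin h → ℂ),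
      ∀ j (α : Mon n d), w (j, α) =
        ∑ i, c j i * ((Nat.multinomial univ α.1 : ℂ) * ∏ k, l i k ^ α.1 k) := by
  classical
  obtain ⟨G, ⟨f0, hf0, hG0⟩, H⟩ := H
  -- restriction of `G` to the homogeneous tuples
  let G1 : MvPolynomial (Fin s × Mon n d) ℂ :=
    aeval (fun b : Fin s × (Fin (n + 1) →₀ ℕ) => if hb : ∑ k, b.2 k = d then
      (X (b.1, ⟨b.2, mem_Mon.2 hb⟩) : MvPolynomial (Fin s × Mon n d) ℂ) else 0) G
  have hG1 : ∀ w : Fin s × Mon n d → ℂ, eval w G1 = eval (coeffs (ofCoeff w)) G := by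
    intro w
    simp only [G1, aeval_def, ← coe_eval₂Hom]
    rw [← RingHom.comp_apply]
    congr 1
    apply MvPolynomial.ringHom_ext
    · intro r
      simp [algebraMap_eq]
    · intro b
      simp only [RingHom.comp_apply, coe_eval₂Hom, eval₂_X, eval_X, coeffs]
      split_ifs with hb
      · rw [eval_X, ← coeff_ofCoeff w b.1 ⟨b.2, mem_Mon.2 hb⟩]
      · rw [map_zero, coeff_ofCoeff_of_ne w b.1 hb]
  have hf0' : ofCoeff (fun b : Fin s × Mon n d => coeff b.2.1 (f0 b.1)) = f0 := by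
    funext j
    ext α
    by_cases hα : ∑ k, α k = d
    · rw [coeff_ofCoeff _ j ⟨α, mem_Mon.2 hα⟩]
    · rw [coeff_ofCoeff_of_ne _ j hα, coeff_eq_zero_of_hom (hf0 j) hα]
  have hG1ne : G1 ≠ 0 := by
    intro h
    apply hG0
    rw [← hf0', ← hG1, h, map_zero]
  obtain ⟨w, hw⟩ := exists_eval_ne (mul_ne_zero hG1ne hF)
  rw [map_mul] at hw
  have hw1 := left_ne_zero_of_mul hw
  have hw2 := right_ne_zero_of_mul hw
  rw [hG1] at hw1
  obtain ⟨l, c, hlc⟩ := H _ (ofCoeff_hom w) hw1
  refine ⟨w, hw2, l, c, fun j α => ?_⟩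
  have := (rep_iff _ (ofCoeff_hom w) l c).1 hlc j α
  rwa [coeff_ofCoeff] at this

theorem W.mono {d h h' n s : ℕ} (H : W d h n s) (hh : h ≤ h') : W d h' n s := by
  obtain ⟨e, rfl⟩ := Nat.exists_eq_add_of_le hh
  obtain ⟨G, h0, H⟩ := H
  refine ⟨G, h0, fun f hf hG => ?_⟩
  obtain ⟨l, c, hlc⟩ := H f hf hG
  refine ⟨Fin.append l (fun _ => 0), fun j => Fin.append (c j) (fun _ => 0), fun j => ?_⟩
  rw [hlc j, Fin.sum_univ_add]
  simp

/-! ### the dual kernel -/

section Dual

variable {n d h s : ℕ}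

/-- the parametrisation, in affine coordinates -/
noncomputable def th (n d h s : ℕ) (b : Fin s × Mon n d) :
    MvPolynomial ((Fin h × Fin s) ⊕ (Fin h × Fin n)) ℂ :=
  ∑ i : Fin h, X (Sum.inl (i, b.1)) *
    aeval (fun k : Fin n => (X (Sum.inr (i, k)) :
      MvPolynomial ((Fin h × Fin s) ⊕ (Fin h × Fin n)) ℂ)) (monomial b.2.1.tail (1 : ℂ))

lemma eval_monomial_tail (z : Fin n → ℂ) (α : Fin (n + 1) →₀ ℕ) :
    eval z (monomial α.tail (1 : ℂ)) = ∏ k, (Fin.cons 1 z : Fin (n + 1) → ℂ) k ^ α k := by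
  rw [eval_monomial, Finsupp.prod_fintype _ _ (by simp), Fin.prod_univ_succ]
  simp [Finsupp.tail_apply]

lemma eval_aeval_X {ι σ : Type} (x : σ → ℂ) (φ : ι → σ) (g : MvPolynomial ι ℂ) :
    eval x (aeval (fun k : ι => (X (φ k) : MvPolynomial σ ℂ)) g) = eval (fun k => x (φ k)) g := by
  rw [aeval_def, ← coe_eval₂Hom, ← RingHom.comp_apply]
  congr 1
  apply MvPolynomial.ringHom_ext
  · intro r
    simp [algebraMap_eq]
  · intro b
    simp

lemma eval_th (x : (Fin h × Fin s) ⊕ (Fin h × Fin n) → ℂ) (b : Fin s × Mon n d) :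
    eval x (th n d h s b) = ∑ i, x (Sum.inl (i, b.1)) *
      ∏ k, (Fin.cons 1 (fun k => x (Sum.inr (i, k))) : Fin (n + 1) → ℂ) k ^ b.2.1 k := by
  rw [th, map_sum]
  refine Finset.sum_congr rfl fun i _ => ?_
  rw [map_mul, eval_X, eval_aeval_X, eval_monomial_tail]

lemma pderiv_th_inl (i0 : Fin h) (j0 : Fin s) (b : Fin s × Mon n d) :
    pderiv (Sum.inl (i0, j0)) (th n d h s b) = if b.1 = j0 then
      aeval (fun k : Fin n => (X (Sum.inr (i0, k)) :
      MvPolynomial ((Fin h × Fin s) ⊕ (Fin h × Fin n)) ℂ)) (monomial b.2.1.tail (1 : ℂ)) else 0 := by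
  classical
  rw [th, map_sum]
  have h1 : ∀ i : Fin h, pderiv (Sum.inl (i0, j0)) (X (Sum.inl (i, b.1)) *
      aeval (fun k : Fin n => (X (Sum.inr (i, k)) :
      MvPolynomial ((Fin h × Fin s) ⊕ (Fin h × Fin n)) ℂ)) (monomial b.2.1.tail (1 : ℂ))) =
      if i = i0 then (if b.1 = j0 then aeval (fun k : Fin n => (X (Sum.inr (i0, k)) :
      MvPolynomial ((Fin h × Fin s) ⊕ (Fin h × Fin n)) ℂ)) (monomial b.2.1.tail (1 : ℂ)) else 0)
      else 0 := by
    intro i
    have e1 : pderiv (Sum.inl (i0, j0)) (aeval (fun k : Fin n => (X (Sum.inr (i, k)) :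
        MvPolynomial ((Fin h × Fin s) ⊕ (Fin h × Fin n)) ℂ)) (monomial b.2.1.tail (1 : ℂ))) = 0 := by
      rw [pderiv_aeval]
      refine Finset.sum_eq_zero fun k _ => ?_
      rw [pderiv_X_of_ne (by simp), mul_zero]
    rw [pderiv_mul, e1, mul_zero, add_zero, pderiv_X]
    by_cases hi : i = i0
    · subst hi
      rw [if_pos rfl]
      by_cases hj : b.1 = j0
      · subst hj
        rw [if_pos rfl, Pi.single_eq_same, one_mul]
      · rw [if_neg hj, Pi.single_eq_of_ne (by simpa using hj), zero_mul]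
    · rw [if_neg hi, Pi.single_eq_of_ne (by simp [hi]), zero_mul]
  rw [Finset.sum_congr rfl fun i _ => h1 i, Finset.sum_ite_eq', if_pos (mem_univ _)]

lemma pderiv_th_inr (i0 : Fin h) (k0 : Fin n) (b : Fin s × Mon n d) :
    pderiv (Sum.inr (i0, k0)) (th n d h s b) = X (Sum.inl (i0, b.1)) *
      aeval (fun k : Fin n => (X (Sum.inr (i0, k)) :
      MvPolynomial ((Fin h × Fin s) ⊕ (Fin h × Fin n)) ℂ))
        (pderiv k0 (monomial b.2.1.tail (1 : ℂ))) := by
  classical
  rw [th, map_sum]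
  rw [Finset.sum_eq_single i0]
  · rw [pderiv_mul, pderiv_X_of_ne (by simp), zero_mul, zero_add, pderiv_aeval]
    congr 1
    rw [Finset.sum_eq_single k0]
    · rw [pderiv_X_self, mul_one]
    · intro k _ hk
      rw [pderiv_X_of_ne (by simpa using hk), mul_zero]
    · intro hh
      exact absurd (mem_univ _) hh
  · intro i _ hi
    rw [pderiv_mul, pderiv_X_of_ne (by simp), zero_mul, zero_add, pderiv_aeval]
    rw [Finset.sum_eq_zero, mul_zero]
    intro k _
    rw [pderiv_X_of_ne (by simp [hi]), mul_zero]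
  · intro hh
    exact absurd (mem_univ _) hh

/-- Property `W` holds if some `h` full points have zero dual kernel. -/
theorem W_of_dual (z : Fin h → Fin n → ℂ) (a : Fin h → Fin s → ℂ)
    (H : ∀ g : Fin s → MvPolynomial (Fin n) ℂ, (∀ j, (g j).totalDegree ≤ d) →
      (∀ i j, eval (z i) (g j) = 0) →
      (∀ i k, ∑ j, a i j * eval (z i) (pderiv k (g j)) = 0) → ∀ j, g j = 0) : W d h n s := by
  classical
  apply W_of_dense
  let p : (Fin h × Fin s) ⊕ (Fin h × Fin n) → ℂ :=
    Sum.elim (fun x => a x.1 x.2) (fun x => z x.1 x.2)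
  obtain ⟨G, hG, hw⟩ := dominant_of_jac (th n d h s) p (by
    intro F hF
    let g : Fin s → MvPolynomial (Fin n) ℂ := fun j =>
      ∑ α : Mon n d, C (F (j, α)) * monomial α.1.tail (1 : ℂ)
    have hg := H g (fun j => ?_) (fun i j => ?_) (fun i k => ?_)
    · funext b
      obtain ⟨j, α⟩ := b
      have h1 := congrArg (coeff α.1.tail) (hg j)
      simp only [g, coeff_sum, coeff_C_mul, coeff_monomial, coeff_zero] at h1
      rw [Finset.sum_eq_single α] at h1
      · simpa using h1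
      · intro β _ hβ
        rw [if_neg, mul_zero]
        intro hh
        apply hβ
        apply Subtype.ext
        have hb := mem_Mon.1 β.2
        have ha := mem_Mon.1 α.2
        rw [Fin.sum_univ_succ] at ha hb
        have h2 : ∀ k : Fin n, β.1 k.succ = α.1 k.succ := fun k => by
          have := DFunLike.congr_fun hh k
          simpa [Finsupp.tail_apply] using this
        have h3 : β.1 0 = α.1 0 := by
          rw [Finset.sum_congr rfl fun k _ => h2 k] at hb
          omega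
        ext k
        refine Fin.cases h3 (fun k => h2 k) k
      · intro hh
        exact absurd (mem_univ _) hh
    · refine totalDegree_finsetSum_le fun α _ => ?_
      refine (totalDegree_mul _ _).trans ?_
      rw [totalDegree_C, zero_add]
      refine (totalDegree_monomial_le _ _).trans ?_
      have ha := mem_Mon.1 α.2
      rw [Fin.sum_univ_succ] at ha
      rw [Finsupp.sum_fintype _ _ (by simp)]
      simp only [Finsupp.tail_apply, id]
      omega
    · have h1 := hF (Sum.inl (i, j))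
      rw [Fintype.sum_prod_type] at h1
      rw [Finset.sum_eq_single j] at h1
      · simp only [g, map_sum, map_mul, eval_C]
        rw [← h1]
        refine Finset.sum_congr rfl fun α _ => ?_
        rw [pderiv_th_inl, if_pos rfl, eval_aeval_X]
        rfl
      · intro j' _ hj'
        refine Finset.sum_eq_zero fun α _ => ?_
        rw [pderiv_th_inl, if_neg hj', map_zero, mul_zero]
      · intro hh
        exact absurd (mem_univ _) hh
    · have h1 := hF (Sum.inr (i, k))
      rw [Fintype.sum_prod_type] at h1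
      rw [← h1]
      refine Finset.sum_congr rfl fun j _ => ?_
      simp only [g, map_sum, Finset.mul_sum]
      refine Finset.sum_congr rfl fun α _ => ?_
      rw [pderiv_th_inr, pderiv_C_mul, map_mul, map_mul, eval_C, eval_X, eval_aeval_X]
      have e1 : p (Sum.inl (i, (j, α).1)) = a i j := rfl
      have e2 : (fun k => p (Sum.inr (i, k))) = z i := rfl
      rw [e1, e2]
      ring)
  refine ⟨G, hG, fun w hwG => ?_⟩
  obtain ⟨x, hx⟩ := hw w hwG
  refine ⟨fun i => Fin.cons 1 fun k => x (Sum.inr (i, k)), fun j i => x (Sum.inl (i, j)),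
    fun j α => ?_⟩
  rw [← hx (j, α), eval_th]

end Dual

end Pool.Agent.Waring
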