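import Pool.Agent.Lib_helper88.Waring.Bridge

/-!
# Simultaneous Waring decompositions: necessary conditions (helper88)
-/

set_option autoImplicit false

open MvPolynomial Finset

namespace Pool.Agent.Waring

/-- normal form of a linear form up to scaling -/
lemma normal_form {n : ℕ} (d : ℕ) (hd : 1 ≤ d) (l : Fin (n + 1) → ℂ) :
    ∃ (t : Fin (n + 1)) (y : Fin n → ℂ) (μ : ℂ), ∀ α : Fin (n + 1) →₀ ℕ, ∑ k, α k = d →
      ∏ k, l k ^ α k = μ * ∏ k, (t.insertNth (1 : ℂ) y : Fin (n + 1) → ℂ) k ^ α k := by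
  by_cases h : ∃ t, l t ≠ 0
  · obtain ⟨t, ht⟩ := h
    refine ⟨t, fun k => l (t.succAbove k) / l t, l t ^ d, fun α hα => ?_⟩
    rw [← hα, ← Finset.prod_pow_eq_pow_sum, ← Finset.prod_mul_distrib]
    refine Finset.prod_congr rfl fun k _ => ?_
    rw [← mul_pow]
    congr 1
    refine Fin.succAboveCases t ?_ (fun k => ?_) k
    · simp
    · simp only [Fin.insertNth_apply_succAbove]
      field_simp
  · push Not at h
    refine ⟨0, 0, 0, fun α hα => ?_⟩
    obtain ⟨k, hk⟩ : ∃ k, α k ≠ 0 := by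
      by_contra hc
      push Not at hc
      simp [hc] at hα
      omega
    rw [zero_mul]
    refine Finset.prod_eq_zero (mem_univ k) ?_
    rw [h k, zero_pow hk]

/-- the parameter count -/
theorem W.bound1 {d h n s : ℕ} (hd : 1 ≤ d) (H : W d h n s) :
    s * (n + d).choose n ≤ h * (n + s) := by
  classical
  by_contra hlt
  push Not at hlt
  let σ : Type := (Fin h × Fin s) ⊕ (Fin h × Fin n)
  let τ : Type := Fin s × Mon n d
  have hcard : Fintype.card σ < Fintype.card τ := by
    simp only [σ, τ, Fintype.card_sum, Fintype.card_prod, Fintype.card_fin, card_Mon]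
    calc h * s + h * n = h * (n + s) := by ring
      _ < _ := hlt
  let θ : (Fin h → Fin (n + 1)) → τ → MvPolynomial σ ℂ := fun t b =>
    C (Nat.multinomial univ b.2.1 : ℂ) * ∑ i : Fin h, X (Sum.inl (i, b.1)) *
      ∏ k, ((t i).insertNth (1 : MvPolynomial σ ℂ) (fun k => X (Sum.inr (i, k))) :
        Fin (n + 1) → MvPolynomial σ ℂ) k ^ b.2.1 k
  choose F hF hF0 using fun t => image_in_hypersurface (θ t) hcard
  obtain ⟨w, hw, l, c, hlc⟩ := H.exists_rep (∏ t, F t) (Finset.prod_ne_zero_iff.2 fun t _ => hF t)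
  choose t y μ hn using fun i => normal_form d hd (l i)
  rw [map_prod, Finset.prod_ne_zero_iff] at hw
  apply hw t (mem_univ t)
  let x : σ → ℂ := Sum.elim (fun p => c p.2 p.1 * μ p.1) (fun p => y p.1 p.2)
  have hx : (fun b => eval x (θ t b)) = w := by
    funext b
    obtain ⟨j, α⟩ := b
    rw [hlc j α]
    simp only [θ, map_mul, map_sum, map_prod, map_pow, eval_C, eval_X, Finset.mul_sum]
    refine Finset.sum_congr rfl fun i _ => ?_
    rw [hn i α.1 (mem_Mon.1 α.2)]
    have e1 : x (Sum.inl (i, j)) = c j i * μ i := rfl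
    have e2 : ∀ k, eval x ((((t i).insertNth (1 : MvPolynomial σ ℂ) (fun k => X (Sum.inr (i, k))) :
        Fin (n + 1) → MvPolynomial σ ℂ)) k) = ((t i).insertNth (1 : ℂ) (y i) :
        Fin (n + 1) → ℂ) k := by
      intro k
      refine Fin.succAboveCases (t i) ?_ (fun k => ?_) k
      · simp
      · simp [x]
    rw [e1, Finset.prod_congr rfl fun k _ => by rw [e2 k]]
    ring
  have := hF0 t x
  rwa [hx] at this

/-- the span condition -/
theorem W.bound2 {d h n s : ℕ} (H : W d h n s) : min s ((n + d).choose n) ≤ h := by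
  classical
  by_contra hlt
  push Not at hlt
  rw [lt_min_iff] at hlt
  obtain ⟨h1, h2⟩ := hlt
  rw [← card_Mon] at h2
  let e1 : Fin (h + 1) ↪ Fin s := Fin.castLEEmb h1
  obtain ⟨e2⟩ : Nonempty (Fin (h + 1) ↪ Mon n d) :=
    Function.Embedding.nonempty_of_card_le (by rw [Fintype.card_fin]; exact h2)
  let M : Matrix (Fin (h + 1)) (Fin (h + 1)) (MvPolynomial (Fin s × Mon n d) ℂ) :=
    Matrix.of fun a b => X (e1 a, e2 b)
  have hM : ∀ w, eval w M.det = (Matrix.of fun a b => w (e1 a, e2 b) :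
      Matrix (Fin (h + 1)) (Fin (h + 1)) ℂ).det := by
    intro w
    rw [RingHom.map_det]
    congr 1
    ext a b
    simp [M]
  have hM0 : M.det ≠ 0 := by
    intro h0
    have h3 := hM fun p => if ∃ a, p = (e1 a, e2 a) then 1 else 0
    rw [h0, map_zero] at h3
    have h4 : (Matrix.of fun a b => if ∃ a', (e1 a, e2 b) = (e1 a', e2 a') then (1 : ℂ) else 0 :
      Matrix (Fin (h + 1)) (Fin (h + 1)) ℂ) = 1 := by
      ext a b
      rw [Matrix.of_apply, Matrix.one_apply]
      congr 1
      refine propext ⟨?_, ?_⟩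
      · rintro ⟨a', ha'⟩
        rw [Prod.mk.injEq] at ha'
        rw [e1.injective ha'.1, e2.injective ha'.2]
      · rintro rfl
        exact ⟨a, rfl⟩
    rw [h4, Matrix.det_one] at h3
    exact zero_ne_one h3
  obtain ⟨w, hw, l, c, hlc⟩ := H.exists_rep M.det hM0
  rw [hM] at hw
  let A : Matrix (Fin (h + 1)) (Fin h) ℂ := Matrix.of fun a i => c (e1 a) i
  let B : Matrix (Fin h) (Fin (h + 1)) ℂ := Matrix.of fun i b =>
    (Nat.multinomial univ (e2 b).1 : ℂ) * ∏ k, l i k ^ (e2 b).1 k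
  have hAB : (Matrix.of fun a b => w (e1 a, e2 b) : Matrix (Fin (h + 1)) (Fin (h + 1)) ℂ) =
      A * B := by
    ext a b
    rw [Matrix.of_apply, hlc, Matrix.mul_apply]
    rfl
  rw [hAB] at hw
  have h5 : IsUnit (A * B) := (Matrix.isUnit_iff_isUnit_det _).2 (isUnit_iff_ne_zero.2 hw)
  have h6 := Matrix.rank_of_isUnit _ h5
  have h7 := (Matrix.rank_mul_le_left A B).trans (Matrix.rank_le_card_width A)
  rw [h6, Fintype.card_fin, Fintype.card_fin] at h7
  omega

end Pool.Agent.Waring
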