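import Pool.Agent.Lib_helper88.Waring.Wah

/-!
# Two polynomials and an odd number of full points (helper88; trick of helper46)
-/

set_option autoImplicit false

open Finset

namespace Pool.Agent.Waring

section

variable {ι : Type} [DecidableEq ι]

/-- the conditions of a pair block -/
def PC (m : ℕ) (z : ι × Fin 2 → ℂ) (P1 P2 R : Finset ι) (Q : ι) (g1 g2 : Arr) : Prop :=
  g1 ∈ Sg m z P1 (insert Q (P2 ∪ R)) ∧ g2 ∈ Sg m z P2 (insert Q (P1 ∪ R)) ∧
  dx m (z (Q, 0)) (z (Q, 1)) g1 + dx m (z (Q, 0)) (z (Q, 1)) g2 = 0 ∧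
  dy m (z (Q, 0)) (z (Q, 1)) g1 + dy m (z (Q, 0)) (z (Q, 1)) g2 = 0

lemma gen_PC {m : ℕ} {P1 P2 R : Finset ι} {Q : ι} (z0 : ι × Fin 2 → ℂ)
    (h : ∀ g1 g2, PC m z0 P1 P2 R Q g1 g2 → g1 = 0 ∧ g2 = 0) :
    Gen (fun z : ι × Fin 2 → ℂ => ∀ g1 g2, PC m z P1 P2 R Q g1 g2 → g1 = 0 ∧ g2 = 0) := by
  let κ : Finset ι → Finset ι → Type := fun A B => (A ⊕ A ⊕ A) ⊕ B
  let lam : (A B : Finset ι) → (ι × Fin 2 → ℂ) → κ A B → Arr →ₗ[ℂ] ℂ := fun A B z =>
    Sum.elim (Sum.elim (fun i : A => ev m (z (i.1, 0)) (z (i.1, 1)))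
      (Sum.elim (fun i : A => dx m (z (i.1, 0)) (z (i.1, 1)))
        (fun i : A => dy m (z (i.1, 0)) (z (i.1, 1)))))
      (fun i : B => ev m (z (i.1, 0)) (z (i.1, 1)))
  have key : ∀ A B z c, c ∈ V m → ((∀ r, lam A B z r c = 0) ↔ c ∈ Sg m z A B) := by
    intro A B z c hc
    constructor
    · intro hr
      refine ⟨hc, fun i hi => ⟨hr (Sum.inl (Sum.inl ⟨i, hi⟩)),
        hr (Sum.inl (Sum.inr (Sum.inl ⟨i, hi⟩))), hr (Sum.inl (Sum.inr (Sum.inr ⟨i, hi⟩)))⟩,
        fun i hi => hr (Sum.inr ⟨i, hi⟩)⟩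
    · rintro ⟨_, h2, h3⟩ r
      rcases r with (i | i | i) | i
      · exact (h2 i.1 i.2).1
      · exact (h2 i.1 i.2).2.1
      · exact (h2 i.1 i.2).2.2
      · exact h3 i.1 i.2
  have hpoly : ∀ A B r u, PolyFn fun z => lam A B z r u := by
    intro A B r u
    rcases r with (i | i | i) | i
    · exact polyFn_ev m i.1 u
    · exact polyFn_dx m i.1 u
    · exact polyFn_dy m i.1 u
    · exact polyFn_ev m i.1 u
  let B1 := insert Q (P2 ∪ R)
  let B2 := insert Q (P1 ∪ R)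
  let L : (ι × Fin 2 → ℂ) → (κ P1 B1 ⊕ κ P2 B2) ⊕ Bool → (Arr × Arr) →ₗ[ℂ] ℂ := fun z =>
    Sum.elim (Sum.elim (fun r => (lam P1 B1 z r).comp (LinearMap.fst ℂ Arr Arr))
      (fun r => (lam P2 B2 z r).comp (LinearMap.snd ℂ Arr Arr)))
      (fun b => if b then (dx m (z (Q, 0)) (z (Q, 1))).comp (LinearMap.fst ℂ Arr Arr) +
        (dx m (z (Q, 0)) (z (Q, 1))).comp (LinearMap.snd ℂ Arr Arr) else
        (dy m (z (Q, 0)) (z (Q, 1))).comp (LinearMap.fst ℂ Arr Arr) +
        (dy m (z (Q, 0)) (z (Q, 1))).comp (LinearMap.snd ℂ Arr Arr))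
  let U : Submodule ℂ (Arr × Arr) := (V m).prod (V m)
  haveI : FiniteDimensional ℂ U := by
    have h1 : (V m).FG := Module.Finite.iff_fg.1 (instFin m)
    exact Module.Finite.iff_fg.2 (h1.prod h1)
  have keyL : ∀ z (u : Arr × Arr), u ∈ U →
      ((∀ r, L z r u = 0) ↔ PC m z P1 P2 R Q u.1 u.2) := by
    intro z u hu
    obtain ⟨hu1, hu2⟩ := hu
    constructor
    · intro hr
      refine ⟨(key P1 B1 z _ hu1).1 fun r => hr (Sum.inl (Sum.inl r)),
        (key P2 B2 z _ hu2).1 fun r => hr (Sum.inl (Sum.inr r)), ?_, ?_⟩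
      · exact hr (Sum.inr true)
      · exact hr (Sum.inr false)
    · rintro ⟨h1, h2, h3, h4⟩ r
      rcases r with (r | r) | b
      · exact (key P1 B1 z _ hu1).2 h1 r
      · exact (key P2 B2 z _ hu2).2 h2 r
      · cases b
        · exact h4
        · exact h3
  refine (Gen.of_point U L ?_ z0 fun u hu hr => ?_).mono fun z hz g1 g2 hg => ?_
  · intro r u
    rcases r with (r | r) | b
    · exact hpoly P1 B1 r u.1
    · exact hpoly P2 B2 r u.2
    · cases b
      · exact (polyFn_dy m Q u.1).add (polyFn_dy m Q u.2)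
      · exact (polyFn_dx m Q u.1).add (polyFn_dx m Q u.2)
  · obtain ⟨h1, h2⟩ := h u.1 u.2 ((keyL z0 u hu).1 hr)
    exact Prod.ext h1 h2
  · have hu : (g1, g2) ∈ U := ⟨hg.1.1, hg.2.1.1⟩
    have h1 := hz (g1, g2) hu ((keyL z (g1, g2) hu).2 hg)
    rw [Prod.mk_eq_zero] at h1
    exact h1

lemma two_T (m : ℕ) : 2 * T m = m * (m + 1) := by
  induction m with
  | zero => rfl
  | succ m ih => rw [T_succ, mul_add, ih]; ring

/-- the numerical conditions -/
lemma pair_num {k q : ℕ} (hq : 1 ≤ q) (h5 : 5 * q + 3 ≤ T (k + 1)) :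
    3 ≤ k ∧ 4 * q + k ≤ T (k + 1) ∧ 4 * q + 2 * k ≤ T (k + 1) + 4 := by
  rcases Nat.lt_or_ge k 11 with hk | hk
  · have e1 : T 1 = 1 := rfl
    have e2 : T 2 = 3 := rfl
    have e3 : T 3 = 6 := rfl
    have e4 : T 4 = 10 := rfl
    have e5 : T 5 = 15 := rfl
    have e6 : T 6 = 21 := rfl
    have e7 : T 7 = 28 := rfl
    have e8 : T 8 = 36 := rfl
    have e9 : T 9 = 45 := rfl
    have e10 : T 10 = 55 := rfl
    have e11 : T 11 = 66 := rfl
    interval_cases k <;> simp only [Nat.zero_add, Nat.reduceAdd] at h5 ⊢ <;> omega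
  · have h2 := two_T (k + 1)
    have h3 : 20 * k ≤ k * k + 3 * k + 66 := by nlinarith
    have h4 : (k + 1) * (k + 1 + 1) = k * k + 3 * k + 2 := by ring
    rw [h4] at h2
    omega

/-- **pair lemma** -/
theorem pair_block {k q : ℕ} (hq : 1 ≤ q) (h5 : 5 * q + 3 ≤ T (k + 1)) {P1 P2 R : Finset ι} {Q : ι}
    (c1 : P1.card = q) (c2 : P2.card = q) (cR : T (k + 1) ≤ R.card + (4 * q + 2))
    (d12 : Disjoint P1 P2) (d1R : Disjoint P1 R) (d2R : Disjoint P2 R)
    (Q1 : Q ∉ P1) (Q2 : Q ∉ P2) (QR : Q ∉ R) :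
    Gen (fun z : ι × Fin 2 → ℂ => ∀ g1 g2, PC (k + 1) z P1 P2 R Q g1 g2 → g1 = 0 ∧ g2 = 0) := by
  obtain ⟨n1, n2, n3⟩ := pair_num hq h5
  have hT1 := T_succ k
  have hT2 := T_pred k
  obtain ⟨p, hp⟩ : P2.Nonempty := Finset.card_pos.1 (by omega)
  obtain ⟨P, hP⟩ : P1.Nonempty := Finset.card_pos.1 (by omega)
  obtain ⟨M, hM, hcM⟩ := Finset.exists_subset_card_eq (show k - 2 ≤ R.card by omega)
  obtain ⟨R0, hR0⟩ : ∃ R0, R0 = R \ M := ⟨_, rfl⟩
  have hsR0 : R0 ⊆ R := by rw [hR0]; exact Finset.sdiff_subset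
  have hcR0 : R0.card = R.card - (k - 2) := by rw [hR0, Finset.card_sdiff_of_subset hM, hcM]
  obtain ⟨P2', hP2'⟩ : ∃ P2', P2' = P2.erase p := ⟨_, rfl⟩
  have hs2 : P2' ⊆ P2 := by rw [hP2']; exact Finset.erase_subset _ _
  have hc2 : P2'.card = q - 1 := by rw [hP2', Finset.card_erase_of_mem hp, c2]
  obtain ⟨P1', hP1'⟩ : ∃ P1', P1' = P1.erase P := ⟨_, rfl⟩
  have hs1 : P1' ⊆ P1 := by rw [hP1']; exact Finset.erase_subset _ _
  have hc1 : P1'.card = q - 1 := by rw [hP1', Finset.card_erase_of_mem hP, c1]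
  have hP1P1 : P ∉ P1' := by rw [hP1']; exact Finset.notMem_erase _ _
  have dd12 := Finset.disjoint_left.1 d12
  have dd1R := Finset.disjoint_left.1 d1R
  have dd2R := Finset.disjoint_left.1 d2R
  have hpP2' : p ∉ P2' := by rw [hP2']; exact Finset.notMem_erase _ _
  have hMR0 : ∀ i ∈ R0, i ∉ M := by
    intro i hi
    rw [hR0] at hi
    exact (Finset.mem_sdiff.1 hi).2
  -- the generic conditions
  have g1 := wah k P1 (P2' ∪ R0)
    (Finset.disjoint_left.2 fun i hi hi' => (mem_union.1 hi').elim (fun h => dd12 hi (hs2 h))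
      fun h => dd1R hi (hsR0 h))
    (by
      rw [Finset.card_union_of_disjoint (Finset.disjoint_left.2 fun i hi hi' =>
        dd2R (hs2 hi) (hsR0 hi'))]
      omega) (by omega)
  have g2 := wah k (insert P P2') (P1' ∪ R0)
    (Finset.disjoint_left.2 fun i hi hi' => by
      rcases Finset.mem_insert.1 hi with h | h <;> rcases mem_union.1 hi' with h' | h'
      · exact hP1P1 (h ▸ h')
      · exact dd1R hP (h ▸ hsR0 h')
      · exact dd12 (hs1 h') (hs2 h)
      · exact dd2R (hs2 h) (hsR0 h'))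
    (by
      rw [Finset.card_union_of_disjoint (Finset.disjoint_left.2 fun i hi hi' =>
        dd1R (hs1 hi) (hsR0 hi')), Finset.card_insert_of_notMem fun h => dd12 hP (hs2 h)]
      omega)
    (by rw [Finset.card_insert_of_notMem fun h => dd12 hP (hs2 h)]; omega)
  have g3 := wah (k - 1) P2' (P1 ∪ R0)
    (Finset.disjoint_left.2 fun i hi hi' => (mem_union.1 hi').elim (fun h => dd12 h (hs2 hi))
      fun h => dd2R (hs2 hi) (hsR0 h))
    (by
      rw [Finset.card_union_of_disjoint (Finset.disjoint_left.2 fun i hi hi' =>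
        dd1R hi (hsR0 hi'))]
      omega) (by omega)
  have g4 : Gen (fun z : ι × Fin 2 → ℂ => ∀ i : (P1 ∪ P2' ∪ R0 : Finset ι), z (i.1, 1) ≠ 0) :=
    Gen.all fun i => Gen.coord_ne (i.1, 1)
  obtain ⟨z1, ⟨⟨hz1, hz2⟩, hz3⟩, hz4⟩ := (((g1.and g2).and g3).and g4).exists
  have hz4' : ∀ i ∈ P1 ∪ P2' ∪ R0, z1 (i, 1) ≠ 0 := fun i hi => hz4 ⟨i, hi⟩
  -- the residual space of the second polynomial
  have hfin : Module.finrank ℂ (Sg k z1 P2' (P1 ∪ R0)) ≤ 2 := by
    have := finrank_le_of_inj (κ := Bool) (Sg k z1 P2' (P1 ∪ R0))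
      (fun b => if b then dx k (z1 (P, 0)) (z1 (P, 1)) else dy k (z1 (P, 0)) (z1 (P, 1)))
      (fun y hy hy' => hz2 y ⟨hy.1, fun i hi => by
        rcases Finset.mem_insert.1 hi with h | h
        · subst h
          exact ⟨hy.2.2 i (mem_union_left _ hP), hy' true, hy' false⟩
        · exact hy.2.1 i h, fun i hi => by
        rcases mem_union.1 hi with h | h
        · exact hy.2.2 i (mem_union_left _ (hs1 h))
        · exact hy.2.2 i (mem_union_right _ h)⟩)
    simpa using this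
  have htr : ∀ y ∈ Sg k z1 P2' (P1 ∪ R0), tr k y = 0 → y = 0 := by
    intro y hy hty
    refine eq_zero_of hy.1 hty (hz3 _ (sh_Sg (fun i hi => hz4' i ?_) hy hty))
    simp only [mem_union] at hi ⊢
    tauto
  obtain ⟨U, hU, -, hUk⟩ := kill_line (Sg k z1 P2' (P1 ∪ R0)) 2 hfin htr ∅
  obtain ⟨U', hU', hUU⟩ := exists_disjoint_card U (k - 2)
  obtain ⟨x1, x2, hx12, rfl⟩ := Finset.card_eq_two.1 hU
  have hpQ : p ≠ Q := fun h => Q2 (h ▸ hp)
  have dM : Disjoint ({Q, p} : Finset ι) M := by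
    rw [Finset.disjoint_left]
    intro i hi hiM
    rcases Finset.mem_insert.1 hi with h | h
    · exact QR (h ▸ hM hiM)
    · rw [Finset.mem_singleton] at h
      exact dd2R hp (h ▸ hM hiM)
  obtain ⟨f, hf1, hf2⟩ := exists_place dM (show ({Q, p} : Finset ι).card = _ by
    rw [Finset.card_pair hpQ.symm, hU]) (hcM.trans hU'.symm)
  -- the special configuration
  let S : Finset ι := {Q, p} ∪ M
  let z0 : ι × Fin 2 → ℂ := fun a => if a.1 ∈ S then (if a.2 = 0 then f a.1 else 0)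
    else z1 a
  have hz00 : ∀ i ∈ S, z0 (i, 0) = f i := fun i hi => by simp only [z0, if_pos hi]; simp
  have hz01 : ∀ i ∈ S, z0 (i, 1) = 0 := fun i hi => by
    simp only [z0, if_pos hi]; simp
  have hz0' : ∀ i, i ∉ S → ∀ k, z0 (i, k) = z1 (i, k) := fun i hi k => by
    simp only [z0, if_neg hi]
  have hQS : Q ∈ S := mem_union_left _ (Finset.mem_insert_self _ _)
  have hpS : p ∈ S := mem_union_left _ (Finset.mem_insert_of_mem (Finset.mem_singleton_self _))
  have hMS : ∀ i ∈ M, i ∈ S := fun i hi => mem_union_right _ hi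
  have hoff : ∀ i ∈ P1 ∪ P2' ∪ R0, i ∉ S := by
    intro i hi hi'
    simp only [S, mem_union, Finset.mem_insert, Finset.mem_singleton] at hi hi'
    rcases hi with (h | h) | h <;> rcases hi' with (h' | h') | h'
    · exact Q1 (h' ▸ h)
    · exact dd12 h (h' ▸ hp)
    · exact dd1R h (hM h')
    · exact Q2 (h' ▸ hs2 h)
    · exact hpP2' (h' ▸ h)
    · exact dd2R (hs2 h) (hM h')
    · exact QR (h' ▸ hsR0 h)
    · exact dd2R hp (h' ▸ hsR0 h)
    · exact hMR0 i h h'
  -- the line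
  have hfQ : f Q ∈ ({x1, x2} : Finset ℂ) := hf1 ▸ Finset.mem_image_of_mem f
    (Finset.mem_insert_self _ _)
  have hfp : f p ∈ ({x1, x2} : Finset ℂ) := hf1 ▸ Finset.mem_image_of_mem f
    (Finset.mem_insert_of_mem (Finset.mem_singleton_self _))
  have hfne : f Q ≠ f p := by
    intro h
    have h2 : ({Q, p} : Finset ι).image f = {f p} := by
      rw [Finset.image_insert, Finset.image_singleton, h, Finset.insert_eq_of_mem
        (Finset.mem_singleton_self _)]
    rw [h2] at hf1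
    have := congrArg Finset.card hf1
    rw [Finset.card_singleton, hU] at this
    omega
  have hfQ' : f Q ∉ U' := Finset.disjoint_left.1 hUU hfQ
  have hfp' : f p ∉ U' := Finset.disjoint_left.1 hUU hfp
  refine gen_PC z0 fun g1 g2 hg => ?_
  obtain ⟨hg1, hg2, hdx, hdy⟩ := hg
  rw [hz00 Q hQS, hz01 Q hQS] at hdx hdy
  rw [dx_zero_right, dx_zero_right] at hdx
  rw [dy_zero_right, dy_zero_right] at hdy
  have hev : ∀ i ∈ S, ∀ g, ev (k + 1) (z0 (i, 0)) (z0 (i, 1)) g = 0 →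
      (tr (k + 1) g).eval (f i) = 0 := by
    intro i hi g h
    rwa [hz00 i hi, hz01 i hi, ev_zero_right] at h
  have hg2p := hg2.2.1 p hp
  have ht2 : tr (k + 1) g2 = 0 := by
    refine tr_eq_zero (A := {f p}) (B := insert (f Q) U') ?_ ?_ ?_ ?_
    · rw [Finset.disjoint_singleton_left, Finset.mem_insert, not_or]
      exact ⟨hfne.symm, hfp'⟩
    · rw [Finset.card_singleton, Finset.card_insert_of_notMem hfQ', hU']
      omega
    · intro x hx
      rw [Finset.mem_singleton] at hx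
      subst hx
      refine ⟨hev p hpS g2 hg2p.1, ?_⟩
      have := hg2p.2.1
      rwa [hz00 p hpS, hz01 p hpS, dx_zero_right] at this
    · intro x hx
      rcases Finset.mem_insert.1 hx with h | h
      · subst h
        exact hev Q hQS g2 (hg2.2.2 Q (Finset.mem_insert_self _ _))
      · rw [← hf2] at h
        obtain ⟨i, hi, rfl⟩ := mem_image.1 h
        exact hev i (hMS i hi) g2 (hg2.2.2 i (Finset.mem_insert_of_mem
          (mem_union_right _ (hM hi))))
  have ht1 : tr (k + 1) g1 = 0 := by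
    refine tr_eq_zero (A := {f Q}) (B := insert (f p) U') ?_ ?_ ?_ ?_
    · rw [Finset.disjoint_singleton_left, Finset.mem_insert, not_or]
      exact ⟨hfne, hfQ'⟩
    · rw [Finset.card_singleton, Finset.card_insert_of_notMem hfp', hU']
      omega
    · intro x hx
      rw [Finset.mem_singleton] at hx
      subst hx
      refine ⟨hev Q hQS g1 (hg1.2.2 Q (Finset.mem_insert_self _ _)), ?_⟩
      rw [ht2, Polynomial.derivative_zero, Polynomial.eval_zero, add_zero] at hdx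
      exact hdx
    · intro x hx
      rcases Finset.mem_insert.1 hx with h | h
      · subst h
        exact hev p hpS g1 (hg1.2.2 p (Finset.mem_insert_of_mem (mem_union_left _ hp)))
      · rw [← hf2] at h
        obtain ⟨i, hi, rfl⟩ := mem_image.1 h
        exact hev i (hMS i hi) g1 (hg1.2.2 i (Finset.mem_insert_of_mem
          (mem_union_right _ (hM hi))))
  -- the residual polynomials
  have hs1' : sh g1 ∈ Sg k z1 P1 (P2' ∪ R0) := by
    have e1 : g1 ∈ Sg (k + 1) z0 P1 (P2' ∪ R0) := by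
      refine Sg_anti (Finset.Subset.refl _) (fun i hi => ?_) hg1
      simp only [mem_union, Finset.mem_insert] at hi ⊢
      rcases hi with h | h
      · exact Or.inr (Or.inr (Or.inl (hs2 h)))
      · exact Or.inr (Or.inr (Or.inr (hsR0 h)))
    have h0 : ∀ i ∈ P1 ∪ (P2' ∪ R0), i ∈ P1 ∪ P2' ∪ R0 := by
      intro i hi
      rwa [← Finset.union_assoc] at hi
    have e2 : sh g1 ∈ Sg k z0 P1 (P2' ∪ R0) := sh_Sg (fun i hi => by
      rw [hz0' i (hoff i (h0 i hi))]
      exact hz4' i (h0 i hi)) e1 ht1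
    exact Sg_congr (fun i hi k => hz0' i (hoff i (h0 i hi)) k) e2
  have hg10 : sh g1 = 0 := hz1 _ hs1'
  have hs2' : sh g2 ∈ Sg k z1 P2' (P1 ∪ R0) := by
    have e1 : g2 ∈ Sg (k + 1) z0 P2' (P1 ∪ R0) := by
      refine Sg_anti hs2 (fun i hi => ?_) hg2
      simp only [mem_union, Finset.mem_insert] at hi ⊢
      rcases hi with h | h
      · exact Or.inr (Or.inr (Or.inl h))
      · exact Or.inr (Or.inr (Or.inr (hsR0 h)))
    have h0 : ∀ i ∈ P2' ∪ (P1 ∪ R0), i ∈ P1 ∪ P2' ∪ R0 := by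
      intro i hi
      simp only [mem_union] at hi ⊢
      tauto
    have e2 : sh g2 ∈ Sg k z0 P2' (P1 ∪ R0) := sh_Sg (fun i hi => by
      rw [hz0' i (hoff i (h0 i hi))]
      exact hz4' i (h0 i hi)) e1 ht2
    exact Sg_congr (fun i hi k => hz0' i (hoff i (h0 i hi)) k) e2
  have hg20 : sh g2 = 0 := by
    refine hUk _ hs2' fun x hx => ?_
    rw [← hf1] at hx
    obtain ⟨i, hi, rfl⟩ := mem_image.1 hx
    rcases Finset.mem_insert.1 hi with h | h
    · subst h
      rw [hg10, map_zero, zero_add] at hdy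
      exact hdy
    · rw [Finset.mem_singleton] at h
      subst h
      have := hg2p.2.2
      rwa [hz00 i hpS, hz01 i hpS, dy_zero_right] at this
  exact ⟨eq_zero_of hg1.1 ht1 hg10, eq_zero_of hg2.1 ht2 hg20⟩

end

end Pool.Agent.Waring
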