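import Pool.Agent.Lib_helper88.Waring.Pair
import Pool.Agent.Lib_helper88.Waring.Neg

/-!
# Simultaneous Waring decompositions of ternary forms (helper88)
-/

set_option autoImplicit false

open MvPolynomial Finset

namespace Pool.Agent.Waring

/-! ### polynomials in two variables as arrays -/

/-- the exponent of `x^i y^j` -/
noncomputable def ex (i j : ℕ) : Fin 2 →₀ ℕ := Finsupp.single 0 i + Finsupp.single 1 j

lemma ex_zero (i j : ℕ) : ex i j 0 = i := by simp [ex]

lemma ex_one (i j : ℕ) : ex i j 1 = j := by simp [ex]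

lemma ex_eq (α : Fin 2 →₀ ℕ) : ex (α 0) (α 1) = α := by
  ext k
  fin_cases k
  · exact ex_zero _ _
  · exact ex_one _ _

/-- the array of coefficients -/
noncomputable def arr (g : MvPolynomial (Fin 2) ℂ) : Arr := fun i j => coeff (ex i j) g

lemma arr_mem {g : MvPolynomial (Fin 2) ℂ} {d : ℕ} (h : g.totalDegree ≤ d) : arr g ∈ V (d + 1) := by
  intro i j hij
  apply coeff_eq_zero_of_totalDegree_lt
  have h1 : ∑ k ∈ (ex i j).support, ex i j k = ∑ k, ex i j k :=
    Finset.sum_subset (Finset.subset_univ _) fun k _ hk => by simpa using hk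
  rw [h1, Fin.sum_univ_two, ex_zero, ex_one]
  omega

lemma expand {g : MvPolynomial (Fin 2) ℂ} {d : ℕ} (h : g.totalDegree ≤ d) :
    g = ∑ j ∈ range (d + 1), ∑ i ∈ range (d + 1 - j),
      C (arr g i j) * ((X 0 : MvPolynomial (Fin 2) ℂ) ^ i * X 1 ^ j) := by
  classical
  have e1 : ∀ i j : ℕ, C (arr g i j) * ((X 0 : MvPolynomial (Fin 2) ℂ) ^ i * X 1 ^ j) =
      monomial (ex i j) (arr g i j) := by
    intro i j
    rw [monomial_eq, Finsupp.prod_fintype _ _ (by simp), Fin.prod_univ_two, ex_zero, ex_one]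
  simp only [e1]
  ext α
  rw [coeff_sum]
  simp only [coeff_sum, coeff_monomial]
  by_cases hα : α 0 + α 1 < d + 1
  · rw [Finset.sum_eq_single (α 1)]
    · rw [Finset.sum_eq_single (α 0)]
      · rw [ex_eq, if_pos rfl, arr, ex_eq]
      · intro i _ hi
        rw [if_neg]
        intro hh
        apply hi
        rw [← hh, ex_zero]
      · intro hh
        exfalso
        apply hh
        rw [mem_range]
        omega
    · intro j _ hj
      refine Finset.sum_eq_zero fun i _ => ?_
      rw [if_neg]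
      intro hh
      apply hj
      rw [← hh, ex_one]
    · intro hh
      exfalso
      apply hh
      rw [mem_range]
      omega
  · have h1 : coeff α g = 0 := by
      have := arr_mem h (α 0) (α 1) (by omega)
      rwa [arr, ex_eq] at this
    rw [h1]
    symm
    refine Finset.sum_eq_zero fun j hj => Finset.sum_eq_zero fun i hi => ?_
    rw [if_neg]
    intro hh
    apply hα
    rw [← hh, ex_zero, ex_one]
    rw [mem_range] at hi hj
    omega

lemma eval_arr {g : MvPolynomial (Fin 2) ℂ} {d : ℕ} (h : g.totalDegree ≤ d) (z : Fin 2 → ℂ) :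
    eval z g = ev (d + 1) (z 0) (z 1) (arr g) := by
  conv_lhs => rw [expand h]
  simp only [map_sum, map_mul, map_pow, eval_C, eval_X]
  rfl

lemma eval_arr_dx {g : MvPolynomial (Fin 2) ℂ} {d : ℕ} (h : g.totalDegree ≤ d) (z : Fin 2 → ℂ) :
    eval z (pderiv 0 g) = dx (d + 1) (z 0) (z 1) (arr g) := by
  conv_lhs => rw [expand h]
  rw [map_sum, map_sum, dx, fn_apply]
  refine Finset.sum_congr rfl fun j _ => ?_
  rw [map_sum, map_sum]
  refine Finset.sum_congr rfl fun i _ => ?_
  rw [pderiv_C_mul, pderiv_mul, pderiv_pow, pderiv_pow, pderiv_X_self,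
    pderiv_X_of_ne (show (1 : Fin 2) ≠ 0 by decide)]
  simp only [map_mul, map_add, map_pow, eval_C, eval_X, map_natCast, map_one, map_zero]
  ring

lemma eval_arr_dy {g : MvPolynomial (Fin 2) ℂ} {d : ℕ} (h : g.totalDegree ≤ d) (z : Fin 2 → ℂ) :
    eval z (pderiv 1 g) = dy (d + 1) (z 0) (z 1) (arr g) := by
  conv_lhs => rw [expand h]
  rw [map_sum, map_sum, dy, fn_apply]
  refine Finset.sum_congr rfl fun j _ => ?_
  rw [map_sum, map_sum]
  refine Finset.sum_congr rfl fun i _ => ?_
  rw [pderiv_C_mul, pderiv_mul, pderiv_pow, pderiv_pow, pderiv_X_self,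
    pderiv_X_of_ne (show (0 : Fin 2) ≠ 1 by decide)]
  simp only [map_mul, map_add, map_pow, eval_C, eval_X, map_natCast, map_one, map_zero]
  ring

lemma eq_zero_of_arr {g : MvPolynomial (Fin 2) ℂ} {d : ℕ} (h : g.totalDegree ≤ d)
    (h0 : arr g = 0) : g = 0 := by
  rw [expand h, h0]
  simp

/-- the dual criterion for `n = 2` -/
theorem W_two {ι : Type} [Fintype ι] {d s : ℕ} (z : ι × Fin 2 → ℂ) (a : ι → Fin s → ℂ)
    (H : ∀ g : Fin s → Arr, (∀ j, g j ∈ V (d + 1)) →
      (∀ i j, ev (d + 1) (z (i, 0)) (z (i, 1)) (g j) = 0) →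
      (∀ i, ∑ j, a i j * dx (d + 1) (z (i, 0)) (z (i, 1)) (g j) = 0) →
      (∀ i, ∑ j, a i j * dy (d + 1) (z (i, 0)) (z (i, 1)) (g j) = 0) → ∀ j, g j = 0) :
    W d (Fintype.card ι) 2 s := by
  let e : Fin (Fintype.card ι) ≃ ι := (Fintype.equivFin ι).symm
  refine W_of_dual (fun i k => z (e i, k)) (fun i => a (e i)) fun g hg h1 h2 j => ?_
  refine eq_zero_of_arr (hg j) (H (fun j => arr (g j)) (fun j => arr_mem (hg j))
    (fun i j => ?_) (fun i => ?_) (fun i => ?_) j)
  · have := h1 (e.symm i) j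
    rw [eval_arr (hg j)] at this
    simpa using this
  · have := h2 (e.symm i) 0
    rw [Finset.sum_congr rfl fun j _ => by rw [eval_arr_dx (hg j)]] at this
    simpa using this
  · have := h2 (e.symm i) 1
    rw [Finset.sum_congr rfl fun j _ => by rw [eval_arr_dy (hg j)]] at this
    simpa using this

/-! ### the configurations -/

section conf

variable {q r s : ℕ}

/-- coefficients of the full points -/
def cf (q r s : ℕ) : (Fin s × Fin q) ⊕ Fin r → Fin s → ℂ
  | Sum.inl p, j => if p.1 = j then 1 else 0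
  | Sum.inr e, j => if j.val / 2 = e.val then 1 else 0

/-- the double points of the form number `j` -/
def dbl (q r s : ℕ) (j : Fin s) : Finset ((Fin s × Fin q) ⊕ Fin r) :=
  univ.image fun x : Fin q => Sum.inl (j, x)

lemma mem_dbl {j : Fin s} {i : (Fin s × Fin q) ⊕ Fin r} :
    i ∈ dbl q r s j ↔ ∃ x, i = Sum.inl (j, x) := by
  rw [dbl, mem_image]
  constructor
  · rintro ⟨x, _, rfl⟩
    exact ⟨x, rfl⟩
  · rintro ⟨x, rfl⟩
    exact ⟨x, mem_univ _, rfl⟩

lemma card_dbl (j : Fin s) : (dbl q r s j).card = q := by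
  rw [dbl, Finset.card_image_of_injective, card_univ, Fintype.card_fin]
  intro x y h
  simpa using h

lemma sum_cf_inl (j : Fin s) (x : Fin q) (v : Fin s → ℂ) :
    ∑ j', cf q r s (Sum.inl (j, x)) j' * v j' = v j := by
  rw [Finset.sum_eq_single j]
  · simp [cf]
  · intro j' _ hj'
    simp [cf, Ne.symm hj']
  · intro h
    exact absurd (mem_univ _) h

/-- each form is singular at its double points -/
lemma sg_of_conf {d : ℕ} (z : ((Fin s × Fin q) ⊕ Fin r) × Fin 2 → ℂ) (g : Fin s → Arr)
    (hg : ∀ j, g j ∈ V (d + 1))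
    (h1 : ∀ i j, ev (d + 1) (z (i, 0)) (z (i, 1)) (g j) = 0)
    (h2 : ∀ i, ∑ j, cf q r s i j * dx (d + 1) (z (i, 0)) (z (i, 1)) (g j) = 0)
    (h3 : ∀ i, ∑ j, cf q r s i j * dy (d + 1) (z (i, 0)) (z (i, 1)) (g j) = 0) (j : Fin s)
    (B : Finset ((Fin s × Fin q) ⊕ Fin r)) : g j ∈ Sg (d + 1) z (dbl q r s j) B := by
  refine ⟨hg j, fun i hi => ⟨h1 i j, ?_, ?_⟩, fun i _ => h1 i j⟩
  · obtain ⟨x, rfl⟩ := mem_dbl.1 hi
    have := h2 (Sum.inl (j, x))
    rwa [sum_cf_inl] at this
  · obtain ⟨x, rfl⟩ := mem_dbl.1 hi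
    have := h3 (Sum.inl (j, x))
    rwa [sum_cf_inl] at this

lemma card_conf : Fintype.card ((Fin s × Fin q) ⊕ Fin r) = s * q + r := by
  simp

/-- pure configurations -/
theorem W_easy (d q r s : ℕ) (hs : 1 ≤ s) (h1 : T (d + 1) ≤ (s + 2) * q + r)
    (h2 : 4 * q ≤ T (d + 1) + 1) : W d (s * q + r) 2 s := by
  have hle : q ≤ s * q := Nat.le_mul_of_pos_left q hs
  have hgen : Gen (fun z : ((Fin s × Fin q) ⊕ Fin r) × Fin 2 → ℂ => ∀ j : Fin s,
      ∀ c ∈ Sg (d + 1) z (dbl q r s j) (univ \ dbl q r s j), c = 0) := by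
    refine Gen.all fun j => wah (d + 1) _ _ Finset.disjoint_sdiff ?_ ?_
    · rw [Finset.card_sdiff_of_subset (Finset.subset_univ _), card_univ, card_conf, card_dbl]
      have : (s + 2) * q = s * q + 2 * q := by ring
      omega
    · rw [card_dbl]
      exact h2
  obtain ⟨z, hz⟩ := hgen.exists
  have := W_two (d := d) z (cf q r s) fun g hg e1 e2 e3 j =>
    hz j _ (sg_of_conf z g hg e1 e2 e3 j _)
  rwa [card_conf] at this

lemma sum_cf_inr_pair {e : Fin r} {j j' : Fin s} (hj : j.val / 2 = e.val)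
    (hj' : j'.val / 2 = e.val) (hne : j ≠ j') (v : Fin s → ℂ) :
    ∑ i, cf q r s (Sum.inr e) i * v i = v j + v j' := by
  have h1 : ∀ i : Fin s, cf q r s (Sum.inr e) i * v i =
      if i ∈ ({j, j'} : Finset (Fin s)) then v i else 0 := by
    intro i
    have h2 : i.val / 2 = e.val ↔ i ∈ ({j, j'} : Finset (Fin s)) := by
      rw [Finset.mem_insert, Finset.mem_singleton]
      constructor
      · intro hi
        have h3 : j.val ≠ j'.val := fun h => hne (Fin.ext h)
        have h4 : i.val = j.val ∨ i.val = j'.val := by omega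
        exact h4.imp Fin.ext Fin.ext
      · rintro (rfl | rfl)
        · exact hj
        · exact hj'
    show (if i.val / 2 = e.val then (1 : ℂ) else 0) * v i = _
    by_cases h : i.val / 2 = e.val
    · rw [if_pos h, if_pos (h2.1 h), one_mul]
    · rw [if_neg h, if_neg fun h' => h (h2.2 h'), zero_mul]
  rw [Finset.sum_congr rfl fun i _ => h1 i, Finset.sum_ite_mem, Finset.univ_inter,
    Finset.sum_pair hne]

lemma sum_cf_inr_single {e : Fin r} {j : Fin s} (hj : j.val / 2 = e.val)
    (h : ∀ j' : Fin s, j'.val / 2 = e.val → j' = j) (v : Fin s → ℂ) :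
    ∑ i, cf q r s (Sum.inr e) i * v i = v j := by
  rw [Finset.sum_eq_single j]
  · show (if j.val / 2 = e.val then (1 : ℂ) else 0) * v j = _
    rw [if_pos hj, one_mul]
  · intro i _ hi
    show (if i.val / 2 = e.val then (1 : ℂ) else 0) * v i = _
    rw [if_neg fun h' => hi (h i h'), zero_mul]
  · intro h
    exact absurd (mem_univ _) h

/-- configurations with mixed points -/
theorem W_mid (d q r s : ℕ) (hq : 1 ≤ q) (h5 : 5 * q + 3 ≤ T (d + 1)) (hr : s ≤ 2 * r)
    (hN : T (d + 1) ≤ (s + 2) * q + r + 1) : W d (s * q + r) 2 s := by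
  have hexp : (s + 2) * q = s * q + 2 * q := by ring
  let Q : Fin s → (Fin s × Fin q) ⊕ Fin r := fun j => Sum.inr ⟨j.val / 2, by omega⟩
  have hQ : ∀ j j' : Fin s, Q j ∉ dbl q r s j' := by
    intro j j' h
    obtain ⟨x, hx⟩ := mem_dbl.1 h
    exact absurd hx (by simp [Q])
  -- pairs
  have g1 : Gen (fun z : ((Fin s × Fin q) ⊕ Fin r) × Fin 2 → ℂ => ∀ p : Fin s × Fin s,
      p.1 ≠ p.2 → ∀ g1 g2, PC (d + 1) z (dbl q r s p.1) (dbl q r s p.2)
        (univ \ insert (Q p.1) (dbl q r s p.1 ∪ dbl q r s p.2)) (Q p.1) g1 g2 →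
        g1 = 0 ∧ g2 = 0) := by
    refine Gen.all fun p => ?_
    by_cases hp : p.1 = p.2
    · exact Gen.of_forall fun z h => absurd hp h
    refine Gen.mono ?_ fun z hz _ => hz
    have hd : Disjoint (dbl q r s p.1) (dbl q r s p.2) := by
      rw [Finset.disjoint_left]
      intro i hi hi'
      obtain ⟨x, rfl⟩ := mem_dbl.1 hi
      obtain ⟨y, hy⟩ := mem_dbl.1 hi'
      apply hp
      simp only [Sum.inl.injEq, Prod.mk.injEq] at hy
      exact hy.1
    have hins : (insert (Q p.1) (dbl q r s p.1 ∪ dbl q r s p.2)).card = 2 * q + 1 := by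
      rw [Finset.card_insert_of_notMem, Finset.card_union_of_disjoint hd, card_dbl, card_dbl]
      · omega
      · rw [mem_union, not_or]
        exact ⟨hQ _ _, hQ _ _⟩
    have hdis : Disjoint (insert (Q p.1) (dbl q r s p.1 ∪ dbl q r s p.2))
        (univ \ insert (Q p.1) (dbl q r s p.1 ∪ dbl q r s p.2)) := Finset.disjoint_sdiff
    refine pair_block hq h5 (card_dbl _) (card_dbl _) ?_ hd
      (Finset.disjoint_of_subset_left (Finset.subset_union_left.trans
        (Finset.subset_insert _ _)) hdis)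
      (Finset.disjoint_of_subset_left (Finset.subset_union_right.trans
        (Finset.subset_insert _ _)) hdis) (hQ _ _) (hQ _ _)
      (Finset.disjoint_left.1 hdis (Finset.mem_insert_self _ _))
    rw [Finset.card_sdiff_of_subset (Finset.subset_univ _), card_univ, card_conf, hins]
    have hs2 : 2 ≤ s := by
      have h1 := p.1.2
      have h2 := p.2.2
      have h3 : p.1.val ≠ p.2.val := fun h => hp (Fin.ext h)
      omega
    have : 2 * q ≤ s * q := Nat.mul_le_mul_right q hs2
    omega
  -- single forms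
  have g2 : Gen (fun z : ((Fin s × Fin q) ⊕ Fin r) × Fin 2 → ℂ => ∀ j : Fin s,
      ∀ c ∈ Sg (d + 1) z (insert (Q j) (dbl q r s j)) (univ \ insert (Q j) (dbl q r s j)),
        c = 0) := by
    refine Gen.all fun j => wah (d + 1) _ _ Finset.disjoint_sdiff ?_ ?_
    · rw [Finset.card_sdiff_of_subset (Finset.subset_univ _), card_univ, card_conf,
        Finset.card_insert_of_notMem (hQ _ _), card_dbl]
      have hs1 : 1 ≤ s := by have := j.2; omega
      have : q ≤ s * q := Nat.le_mul_of_pos_left q hs1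
      omega
    · rw [Finset.card_insert_of_notMem (hQ _ _), card_dbl]
      omega
  obtain ⟨z, hz1, hz2⟩ := (g1.and g2).exists
  have := W_two (d := d) z (cf q r s) fun g hg e1 e2 e3 j => by
    by_cases hj : ∃ j', j ≠ j' ∧ j'.val / 2 = j.val / 2
    · obtain ⟨j', hne, hj'⟩ := hj
      refine (hz1 (j, j') hne (g j) (g j') ⟨sg_of_conf z g hg e1 e2 e3 j _,
        sg_of_conf z g hg e1 e2 e3 j' _, ?_, ?_⟩).1
      · have := e2 (Q j)
        rwa [sum_cf_inr_pair (j := j) (j' := j') rfl hj' hne] at this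
      · have := e3 (Q j)
        rwa [sum_cf_inr_pair (j := j) (j' := j') rfl hj' hne] at this
    · push Not at hj
      have hj1 : ∀ j' : Fin s, j'.val / 2 = j.val / 2 → j' = j := by
        intro j' h
        by_contra hne
        exact hj j' (Ne.symm hne) h
      refine hz2 j (g j) ⟨hg j, fun i hi => ?_, fun i _ => e1 i j⟩
      rcases Finset.mem_insert.1 hi with h | h
      · subst h
        refine ⟨e1 _ j, ?_, ?_⟩
        · have := e2 (Q j)
          rwa [sum_cf_inr_single (j := j) rfl hj1] at this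
        · have := e3 (Q j)
          rwa [sum_cf_inr_single (j := j) rfl hj1] at this
      · exact (sg_of_conf z g hg e1 e2 e3 j ∅).2.1 i h
  rwa [card_conf] at this

end conf

/-- **Simultaneous Waring decompositions of `s ≥ 3` ternary forms.** -/
theorem ternary (d h s : ℕ) (hd : 1 ≤ d) (hs : 3 ≤ s) :
    W d h 2 s ↔ min s ((d + 2).choose 2) ≤ h ∧ s * (d + 2).choose 2 ≤ h * (s + 2) := by
  constructor
  · intro H
    have h1 := H.bound1 hd
    have h2 := H.bound2
    rw [Nat.add_comm 2 d] at h1 h2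
    rw [Nat.add_comm 2 s] at h1
    exact ⟨h2, h1⟩
  · rintro ⟨h1, h2⟩
    obtain ⟨N, hN⟩ : ∃ N, N = (d + 2).choose 2 := ⟨_, rfl⟩
    have hT : T (d + 1) = N := by rw [hN]; rfl
    rw [← hN] at h1 h2
    rcases Nat.lt_or_ge s N with hsN | hsN
    · obtain ⟨q, hq⟩ : ∃ q, q = N / (s + 2) := ⟨_, rfl⟩
      obtain ⟨t, ht⟩ : ∃ t, t = N % (s + 2) := ⟨_, rfl⟩
      have hdiv : (s + 2) * q + t = N := by rw [hq, ht]; exact Nat.div_add_mod N (s + 2)
      have htlt : t < s + 2 := by rw [ht]; exact Nat.mod_lt _ (by omega)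
      have h5 : 5 * q ≤ (s + 2) * q := Nat.mul_le_mul_right q (by omega)
      rw [← hdiv] at h2
      rcases Nat.lt_or_ge (2 * t) (s + 2) with h2t | h2t
      · have hW := W_easy d q t s (by omega) (by rw [hT]; omega) (by rw [hT]; omega)
        refine hW.mono ?_
        by_contra hlt
        push Not at hlt
        have h3 : (h + 1) * (s + 2) ≤ (s * q + t) * (s + 2) := Nat.mul_le_mul_right _ hlt
        nlinarith
      · rcases Nat.lt_or_ge s t with hst | hst
        · have hts : t = s + 1 := by omega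
          have hW := W_easy d (q + 1) 0 s (by omega) (by rw [hT, mul_add]; omega)
            (by rw [hT]; omega)
          refine hW.mono ?_
          by_contra hlt
          push Not at hlt
          have h3 : (h + 1) * (s + 2) ≤ (s * (q + 1) + 0) * (s + 2) :=
            Nat.mul_le_mul_right _ hlt
          rw [hts] at h2
          nlinarith
        · have hq1 : 1 ≤ q := by
            rcases Nat.eq_zero_or_pos q with h0 | h0
            · rw [h0] at hdiv
              omega
            · exact h0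
          have hW := W_mid d q (t - 1) s hq1 (by rw [hT]; omega) (by omega)
            (by rw [hT]; omega)
          refine hW.mono ?_
          by_contra hlt
          push Not at hlt
          have hlt' : h + 2 ≤ s * q + t := by omega
          have h3 : (h + 2) * (s + 2) ≤ (s * q + t) * (s + 2) := Nat.mul_le_mul_right _ hlt'
          nlinarith
    · have hW := W_easy d 0 N s (by omega) (by rw [hT]; omega) (by omega)
      refine hW.mono ?_
      rw [min_eq_right hsN] at h1
      omega

end Pool.Agent.Waring
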