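import Pool.Agent.Lib_helper88.Waring.Arr

/-!
# Double and simple points in general position in the plane (helper88)
-/

set_option autoImplicit false

open Finset

namespace Pool.Agent.Waring

/-! ### linear algebra -/

/-- a space on which finitely many functionals are jointly injective -/
lemma finrank_le_of_inj {E κ : Type} [AddCommGroup E] [Module ℂ E] [Fintype κ]
    (Y : Submodule ℂ E) [FiniteDimensional ℂ Y] (φ : κ → E →ₗ[ℂ] ℂ)
    (h : ∀ y ∈ Y, (∀ k, φ k y = 0) → y = 0) : Module.finrank ℂ Y ≤ Fintype.card κ := by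
  let f : Y →ₗ[ℂ] (κ → ℂ) := LinearMap.pi fun k => (φ k).comp Y.subtype
  have hf : Function.Injective f := by
    rw [← LinearMap.ker_eq_bot, LinearMap.ker_eq_bot']
    intro y hy
    apply Subtype.ext
    exact h y y.2 fun k => congrFun hy k
  have := LinearMap.finrank_le_finrank_of_injective hf
  rwa [Module.finrank_fintype_fun_eq_card] at this

/-- general points of the line `y = 0` impose independent conditions -/
lemma kill_line {m : ℕ} (Y : Submodule ℂ Arr) [FiniteDimensional ℂ Y] (r : ℕ)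
    (hr : Module.finrank ℂ Y ≤ r) (h : ∀ y ∈ Y, tr m y = 0 → y = 0) (F : Finset ℂ) :
    ∃ U : Finset ℂ, U.card = r ∧ Disjoint U F ∧ ∀ y ∈ Y, (∀ x ∈ U, ev m x 0 y = 0) → y = 0 := by
  refine kill (fun x => ev m x 0) r Y hr (fun y hy hy0 F => ?_) F
  by_contra hc
  push Not at hc
  apply hy0
  apply h y hy
  by_contra htr
  have h1 : ((tr m y).roots.toFinset : Set ℂ)ᶜ ⊆ (F : Set ℂ) := by
    intro x hx
    by_contra hxF
    have h2 := hc x hxF
    rw [ev_zero_right] at h2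
    apply hx
    rw [Finset.mem_coe, Multiset.mem_toFinset, Polynomial.mem_roots htr]
    exact h2
  exact (Set.Finite.infinite_compl (Finset.finite_toSet _)) ((Finset.finite_toSet F).subset h1)

/-! ### the triangular numbers -/

/-- the dimension of `V m` -/
def T (m : ℕ) : ℕ := (m + 1).choose 2

lemma T_zero : T 0 = 0 := rfl

lemma T_succ (m : ℕ) : T (m + 1) = T m + (m + 1) := by
  have h : (m + 1 + 1).choose (1 + 1) = (m + 1).choose 1 + (m + 1).choose (1 + 1) :=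
    Nat.choose_succ_succ (m + 1) 1
  rw [Nat.choose_one_right] at h
  show (m + 1 + 1).choose (1 + 1) = (m + 1).choose (1 + 1) + (m + 1)
  omega

lemma T_pred (m : ℕ) : T m = T (m - 1) + m := by
  cases m with
  | zero => rfl
  | succ m => rw [Nat.add_sub_cancel, T_succ]

section

variable {ι : Type} [DecidableEq ι]

/-- polynomials of degree `< m` singular at the points of `A` and vanishing at those of `B` -/
def Sg (m : ℕ) (z : ι × Fin 2 → ℂ) (A B : Finset ι) : Submodule ℂ Arr where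
  carrier := {c | c ∈ V m ∧ (∀ i ∈ A, ev m (z (i, 0)) (z (i, 1)) c = 0 ∧
    dx m (z (i, 0)) (z (i, 1)) c = 0 ∧ dy m (z (i, 0)) (z (i, 1)) c = 0) ∧
    ∀ i ∈ B, ev m (z (i, 0)) (z (i, 1)) c = 0}
  zero_mem' := ⟨Submodule.zero_mem _, fun i _ => by simp, fun i _ => by simp⟩
  add_mem' := by
    rintro c c' ⟨h1, h2, h3⟩ ⟨h1', h2', h3'⟩
    refine ⟨Submodule.add_mem _ h1 h1', fun i hi => ?_, fun i hi => ?_⟩
    · obtain ⟨a1, a2, a3⟩ := h2 i hi
      obtain ⟨b1, b2, b3⟩ := h2' i hi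
      rw [map_add, map_add, map_add, a1, a2, a3, b1, b2, b3]
      simp
    · rw [map_add, h3 i hi, h3' i hi, add_zero]
  smul_mem' := by
    rintro r c ⟨h1, h2, h3⟩
    refine ⟨Submodule.smul_mem _ _ h1, fun i hi => ?_, fun i hi => ?_⟩
    · obtain ⟨a1, a2, a3⟩ := h2 i hi
      rw [map_smul, map_smul, map_smul, a1, a2, a3]
      simp
    · rw [map_smul, h3 i hi, smul_zero]

lemma mem_Sg {m : ℕ} {z : ι × Fin 2 → ℂ} {A B : Finset ι} {c : Arr} :
    c ∈ Sg m z A B ↔ c ∈ V m ∧ (∀ i ∈ A, ev m (z (i, 0)) (z (i, 1)) c = 0 ∧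
    dx m (z (i, 0)) (z (i, 1)) c = 0 ∧ dy m (z (i, 0)) (z (i, 1)) c = 0) ∧
    ∀ i ∈ B, ev m (z (i, 0)) (z (i, 1)) c = 0 := Iff.rfl

instance instFinSg (m : ℕ) (z : ι × Fin 2 → ℂ) (A B : Finset ι) :
    FiniteDimensional ℂ (Sg m z A B) :=
  Submodule.finiteDimensional_of_le (show Sg m z A B ≤ V m from fun _ hc => hc.1)

lemma Sg_anti {m : ℕ} {z : ι × Fin 2 → ℂ} {A B A' B' : Finset ι} (hA : A' ⊆ A)
    (hB : B' ⊆ A ∪ B) {c : Arr} (hc : c ∈ Sg m z A B) : c ∈ Sg m z A' B' := by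
  obtain ⟨h1, h2, h3⟩ := hc
  refine ⟨h1, fun i hi => h2 i (hA hi), fun i hi => ?_⟩
  rcases mem_union.1 (hB hi) with h | h
  · exact (h2 i h).1
  · exact h3 i h

/-- only the positions of the points matter -/
lemma Sg_congr {m : ℕ} {z z' : ι × Fin 2 → ℂ} {A B : Finset ι}
    (h : ∀ i ∈ A ∪ B, ∀ k, z (i, k) = z' (i, k)) {c : Arr} (hc : c ∈ Sg m z A B) :
    c ∈ Sg m z' A B := by
  obtain ⟨h1, h2, h3⟩ := hc
  refine ⟨h1, fun i hi => ?_, fun i hi => ?_⟩
  · rw [← h i (mem_union_left _ hi), ← h i (mem_union_left _ hi)]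
    exact h2 i hi
  · rw [← h i (mem_union_right _ hi), ← h i (mem_union_right _ hi)]
    exact h3 i hi

/-- division by the equation of the line `y = 0` -/
lemma sh_Sg {m : ℕ} {z : ι × Fin 2 → ℂ} {A B : Finset ι} (hz : ∀ i ∈ A ∪ B, z (i, 1) ≠ 0)
    {c : Arr} (hc : c ∈ Sg m z A B) (ht : tr m c = 0) : sh c ∈ Sg (m - 1) z A B := by
  obtain ⟨h1, h2, h3⟩ := hc
  have hev : ∀ i ∈ A ∪ B, ev m (z (i, 0)) (z (i, 1)) c = 0 →
      ev (m - 1) (z (i, 0)) (z (i, 1)) (sh c) = 0 := by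
    intro i hi h
    rw [ev_rec, ht, Polynomial.eval_zero, zero_add] at h
    exact (mul_eq_zero.1 h).resolve_left (hz i hi)
  refine ⟨sh_mem h1, fun i hi => ?_, fun i hi => hev i (mem_union_right _ hi) (h3 i hi)⟩
  obtain ⟨a1, a2, a3⟩ := h2 i hi
  have hi' := mem_union_left B hi
  have e1 := hev i hi' a1
  refine ⟨e1, ?_, ?_⟩
  · rw [dx_rec, ht, Polynomial.derivative_zero, Polynomial.eval_zero, zero_add] at a2
    exact (mul_eq_zero.1 a2).resolve_left (hz i hi')
  · rw [dy_rec, e1, zero_add] at a3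
    exact (mul_eq_zero.1 a3).resolve_left (hz i hi')

/-! ### polynomial dependence on the configuration -/

lemma polyFn_fn (m : ℕ) {σ : Type} {φ ψ : (σ → ℂ) → ℕ → ℂ} (hφ : ∀ i, PolyFn fun z => φ z i)
    (hψ : ∀ i, PolyFn fun z => ψ z i) (c : Arr) : PolyFn fun z => fn m (φ z) (ψ z) c := by
  simp only [fn_apply]
  exact PolyFn.sum _ fun j _ => PolyFn.sum _ fun i _ =>
    (PolyFn.const _).mul ((hφ i).mul (hψ j))

lemma polyFn_ev (m : ℕ) (i : ι) (c : Arr) :
    PolyFn fun z : ι × Fin 2 → ℂ => ev m (z (i, 0)) (z (i, 1)) c :=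
  polyFn_fn m (fun _ => (PolyFn.coord _).pow _) (fun _ => (PolyFn.coord _).pow _) c

lemma polyFn_dx (m : ℕ) (i : ι) (c : Arr) :
    PolyFn fun z : ι × Fin 2 → ℂ => dx m (z (i, 0)) (z (i, 1)) c :=
  polyFn_fn m (fun _ => (PolyFn.const _).mul ((PolyFn.coord _).pow _))
    (fun _ => (PolyFn.coord _).pow _) c

lemma polyFn_dy (m : ℕ) (i : ι) (c : Arr) :
    PolyFn fun z : ι × Fin 2 → ℂ => dy m (z (i, 0)) (z (i, 1)) c :=
  polyFn_fn m (fun _ => (PolyFn.coord _).pow _)
    (fun _ => (PolyFn.const _).mul ((PolyFn.coord _).pow _)) c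

/-- one configuration without kernel is enough -/
lemma gen_Sg {m : ℕ} {A B : Finset ι} (z0 : ι × Fin 2 → ℂ) (h : ∀ c ∈ Sg m z0 A B, c = 0) :
    Gen (fun z : ι × Fin 2 → ℂ => ∀ c ∈ Sg m z A B, c = 0) := by
  let R : Type := (A ⊕ A ⊕ A) ⊕ B
  let lam : (ι × Fin 2 → ℂ) → R → Arr →ₗ[ℂ] ℂ := fun z =>
    Sum.elim (Sum.elim (fun i : A => ev m (z (i.1, 0)) (z (i.1, 1)))
      (Sum.elim (fun i : A => dx m (z (i.1, 0)) (z (i.1, 1)))
        (fun i : A => dy m (z (i.1, 0)) (z (i.1, 1)))))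
      (fun i : B => ev m (z (i.1, 0)) (z (i.1, 1)))
  have key : ∀ z c, c ∈ V m → ((∀ r, lam z r c = 0) ↔ c ∈ Sg m z A B) := by
    intro z c hc
    constructor
    · intro hr
      refine ⟨hc, fun i hi => ⟨hr (Sum.inl (Sum.inl ⟨i, hi⟩)),
        hr (Sum.inl (Sum.inr (Sum.inl ⟨i, hi⟩))), hr (Sum.inl (Sum.inr (Sum.inr ⟨i, hi⟩)))⟩,
        fun i hi => hr (Sum.inr ⟨i, hi⟩)⟩
    · rintro ⟨_, h2, h3⟩ r
      rcases r with (i | i | i) | i
      · exact (h2 i.1 i.2).1
      · exact (h2 i.1 i.2).2.1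
      · exact (h2 i.1 i.2).2.2
      · exact h3 i.1 i.2
  refine (Gen.of_point (V m) lam ?_ z0 fun u hu hr => h u ((key z0 u hu).1 hr)).mono
    fun z hz c hc => hz c hc.1 ((key z c hc.1).2 hc)
  intro r u
  rcases r with (i | i | i) | i
  · exact polyFn_ev m i.1 u
  · exact polyFn_dx m i.1 u
  · exact polyFn_dy m i.1 u
  · exact polyFn_ev m i.1 u

lemma exists_disjoint_card (F : Finset ℂ) (k : ℕ) : ∃ U : Finset ℂ, U.card = k ∧ Disjoint F U := by
  obtain ⟨U, hU, hk⟩ := (Set.Finite.infinite_compl (Finset.finite_toSet F)).exists_subset_card_eq k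
  refine ⟨U, hk, ?_⟩
  rw [Finset.disjoint_left]
  intro x hx hxU
  exact hU hxU hx

/-- place the points of `A1` on `U` and those of `B1` on `U'` -/
lemma exists_place {A1 B1 : Finset ι} {U U' : Finset ℂ} (hAB : Disjoint A1 B1)
    (h1 : A1.card = U.card) (h2 : B1.card = U'.card) :
    ∃ f : ι → ℂ, A1.image f = U ∧ B1.image f = U' := by
  obtain ⟨e1⟩ : Nonempty (A1 ≃ U) := ⟨Finset.equivOfCardEq h1⟩
  obtain ⟨e2⟩ : Nonempty (B1 ≃ U') := ⟨Finset.equivOfCardEq h2⟩
  refine ⟨fun i => if h : i ∈ A1 then (e1 ⟨i, h⟩ : ℂ) else if h : i ∈ B1 then (e2 ⟨i, h⟩ : ℂ)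
    else 0, ?_, ?_⟩
  · ext x
    rw [mem_image]
    constructor
    · rintro ⟨i, hi, rfl⟩
      rw [dif_pos hi]
      exact (e1 ⟨i, hi⟩).2
    · intro hx
      refine ⟨(e1.symm ⟨x, hx⟩).1, (e1.symm ⟨x, hx⟩).2, ?_⟩
      rw [dif_pos (e1.symm ⟨x, hx⟩).2]
      simp
  · ext x
    rw [mem_image]
    constructor
    · rintro ⟨i, hi, rfl⟩
      rw [dif_neg (Finset.disjoint_right.1 hAB hi), dif_pos hi]
      exact (e2 ⟨i, hi⟩).2
    · intro hx
      refine ⟨(e2.symm ⟨x, hx⟩).1, (e2.symm ⟨x, hx⟩).2, ?_⟩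
      rw [dif_neg (Finset.disjoint_right.1 hAB (e2.symm ⟨x, hx⟩).2),
        dif_pos (e2.symm ⟨x, hx⟩).2]
      simp

/-- **double and simple points in general position** -/
theorem wah (m : ℕ) : ∀ A B : Finset ι, Disjoint A B → T m ≤ 3 * A.card + B.card →
    4 * A.card ≤ T m + 1 → Gen (fun z : ι × Fin 2 → ℂ => ∀ c ∈ Sg m z A B, c = 0) := by
  induction m using Nat.strong_induction_on with
  | _ m IH =>
  intro A B hAB h1 h2
  cases m with
  | zero => exact Gen.of_forall fun z c hc => V_zero hc.1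
  | succ k =>
    have hT1 := T_succ k
    have hT2 := T_pred k
    have hT0 : k = 0 → T (k - 1) = 0 := by rintro rfl; rfl
    have hT3 : k = 2 → T (k - 1) = 1 := by rintro rfl; rfl
    -- shrink `B`
    obtain ⟨B', hB', hcB'⟩ := Finset.exists_subset_card_eq
      (show T (k + 1) - 3 * A.card ≤ B.card by omega)
    have hAB' : Disjoint A B' := Finset.disjoint_of_subset_right hB' hAB
    suffices hs : Gen (fun z : ι × Fin 2 → ℂ => ∀ c ∈ Sg (k + 1) z A B', c = 0) from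
      hs.mono fun z hz c hc => hz c (Sg_anti (Finset.Subset.refl _)
        (hB'.trans Finset.subset_union_right) hc)
    obtain ⟨p, hp⟩ : ∃ p, p = min A.card ((k + 1) / 2) := ⟨_, rfl⟩
    obtain ⟨A1, hA1, hcA1⟩ := Finset.exists_subset_card_eq (show p ≤ A.card by omega)
    obtain ⟨B1, hB1, hcB1⟩ := Finset.exists_subset_card_eq
      (show k + 1 - 2 * p ≤ B'.card by omega)
    obtain ⟨A0, hA0⟩ : ∃ A0, A0 = A \ A1 := ⟨_, rfl⟩
    obtain ⟨B0, hB0⟩ : ∃ B0, B0 = B' \ B1 := ⟨_, rfl⟩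
    have hcA0 : A0.card = A.card - p := by rw [hA0, Finset.card_sdiff_of_subset hA1, hcA1]
    have hcB0 : B0.card = B'.card - (k + 1 - 2 * p) := by
      rw [hB0, Finset.card_sdiff_of_subset hB1, hcB1]
    have hsA0 : A0 ⊆ A := by rw [hA0]; exact Finset.sdiff_subset
    have hsB0 : B0 ⊆ B' := by rw [hB0]; exact Finset.sdiff_subset
    obtain ⟨A0', hA0', hcA0'⟩ := Finset.exists_subset_card_eq
      (show min A0.card ((T (k - 1) + 1) / 4) ≤ A0.card by omega)
    have d00 : Disjoint A0 B0 := Finset.disjoint_of_subset_left hsA0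
      (Finset.disjoint_of_subset_right hsB0 hAB')
    have d01 : Disjoint A0 A1 := by rw [hA0]; exact Finset.sdiff_disjoint
    have dB0A1 : Disjoint B0 A1 := (Finset.disjoint_of_subset_left hA1
      (Finset.disjoint_of_subset_right hsB0 hAB')).symm
    have dA1B1 : Disjoint A1 B1 := Finset.disjoint_of_subset_left hA1
      (Finset.disjoint_of_subset_right hB1 hAB')
    -- the three generic conditions
    have g1 := IH k (by omega) A0 (B0 ∪ A1) (Finset.disjoint_union_right.2 ⟨d00, d01⟩)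
      (by rw [Finset.card_union_of_disjoint dB0A1]; omega) (by omega)
    have g2 := IH (k - 1) (by omega) A0' (B0 ∪ (A0 \ A0'))
      (Finset.disjoint_union_right.2 ⟨Finset.disjoint_of_subset_left hA0' d00,
        Finset.disjoint_sdiff⟩)
      (by
        rw [Finset.card_union_of_disjoint (Finset.disjoint_of_subset_right Finset.sdiff_subset
          d00.symm), Finset.card_sdiff_of_subset hA0']
        omega) (by omega)
    have g3 : Gen (fun z : ι × Fin 2 → ℂ => ∀ i : (A0 ∪ B0 : Finset ι), z (i.1, 1) ≠ 0) :=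
      Gen.all fun i => Gen.coord_ne (i.1, 1)
    obtain ⟨z1, ⟨hz1, hz2⟩, hz3⟩ := ((g1.and g2).and g3).exists
    have hz3' : ∀ i ∈ A0 ∪ B0, z1 (i, 1) ≠ 0 := fun i hi => hz3 ⟨i, hi⟩
    -- the residual space
    have hfin : Module.finrank ℂ (Sg k z1 A0 B0) ≤ p := by
      have := finrank_le_of_inj (Sg k z1 A0 B0) (fun i : A1 => ev k (z1 (i.1, 0)) (z1 (i.1, 1)))
        (fun y hy hy' => hz1 y ⟨hy.1, hy.2.1, fun i hi => by
          rcases mem_union.1 hi with h | h
          · exact hy.2.2 i h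
          · exact hy' ⟨i, h⟩⟩)
      rwa [Fintype.card_coe, hcA1] at this
    have htr : ∀ y ∈ Sg k z1 A0 B0, tr k y = 0 → y = 0 := by
      intro y hy hty
      refine eq_zero_of hy.1 hty (hz2 _ (Sg_anti hA0' ?_ (sh_Sg hz3' hy hty)))
      exact Finset.union_subset Finset.subset_union_right
        (Finset.sdiff_subset.trans Finset.subset_union_left)
    obtain ⟨U, hU, -, hUk⟩ := kill_line (Sg k z1 A0 B0) p hfin htr ∅
    obtain ⟨U', hU', hUU⟩ := exists_disjoint_card U (k + 1 - 2 * p)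
    obtain ⟨f, hf1, hf2⟩ := exists_place dA1B1 (hcA1.trans hU.symm) (hcB1.trans hU'.symm)
    -- the special configuration
    let z0 : ι × Fin 2 → ℂ := fun p => if p.1 ∈ A1 ∪ B1 then (if p.2 = 0 then f p.1 else 0)
      else z1 p
    have hz00 : ∀ i ∈ A1 ∪ B1, z0 (i, 0) = f i := fun i hi => by simp only [z0, if_pos hi]; simp
    have hz01 : ∀ i ∈ A1 ∪ B1, z0 (i, 1) = 0 := fun i hi => by
      simp only [z0, if_pos hi]; simp
    have hz0' : ∀ i, i ∉ A1 ∪ B1 → ∀ k, z0 (i, k) = z1 (i, k) := fun i hi k => by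
      simp only [z0, if_neg hi]
    have hoff : ∀ i ∈ A0 ∪ B0, i ∉ A1 ∪ B1 := by
      intro i hi hi'
      rcases mem_union.1 hi with h | h <;> rcases mem_union.1 hi' with h' | h'
      · exact Finset.disjoint_left.1 d01 h h'
      · exact Finset.disjoint_left.1 hAB' (hsA0 h) (hB1 h')
      · exact Finset.disjoint_left.1 dB0A1 h h'
      · rw [hB0] at h
        exact (Finset.mem_sdiff.1 h).2 h'
    refine gen_Sg z0 fun c hc => ?_
    have ht : tr (k + 1) c = 0 := by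
      refine tr_eq_zero (A := U) (B := U') hUU (by rw [hU, hU']; omega) ?_ ?_
      · intro x hx
        rw [← hf1] at hx
        obtain ⟨i, hi, rfl⟩ := mem_image.1 hx
        have hi' : i ∈ A1 ∪ B1 := mem_union_left _ hi
        obtain ⟨a1, a2, a3⟩ := hc.2.1 i (hA1 hi)
        rw [hz00 i hi', hz01 i hi'] at a1 a2
        rw [ev_zero_right] at a1
        rw [dx_zero_right] at a2
        exact ⟨a1, a2⟩
      · intro x hx
        rw [← hf2] at hx
        obtain ⟨i, hi, rfl⟩ := mem_image.1 hx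
        have hi' : i ∈ A1 ∪ B1 := mem_union_right _ hi
        have a1 := hc.2.2 i (hB1 hi)
        rw [hz00 i hi', hz01 i hi', ev_zero_right] at a1
        exact a1
    have hsh : sh c ∈ Sg k z1 A0 B0 := by
      have e1 : c ∈ Sg (k + 1) z0 A0 B0 := Sg_anti hsA0 (hsB0.trans Finset.subset_union_right) hc
      have e2 : sh c ∈ Sg k z0 A0 B0 := sh_Sg (fun i hi => by
        rw [hz0' i (hoff i hi)]
        exact hz3' i hi) e1 ht
      exact Sg_congr (fun i hi k => hz0' i (hoff i hi) k) e2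
    refine eq_zero_of hc.1 ht (hUk _ hsh fun x hx => ?_)
    rw [← hf1] at hx
    obtain ⟨i, hi, rfl⟩ := mem_image.1 hx
    have hi' : i ∈ A1 ∪ B1 := mem_union_left _ hi
    have a3 := (hc.2.1 i (hA1 hi)).2.2
    rw [hz00 i hi', hz01 i hi', dy_zero_right] at a3
    exact a3

end

end Pool.Agent.Waring
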